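import Pool.Agent.W_MP_fefad7_co.Defs

set_option autoImplicit false

namespace Pool.Agent.W_MP_fefad7_co

variable {n : ℕ}

lemma Satisfiable.mono {F G : Finset (Clause n)} (h : F ⊆ G) (hG : Satisfiable G) :
    Satisfiable F := by
  obtain ⟨s, hs⟩ := hG
  exact ⟨s, fun c hc => hs c (h hc)⟩

lemma satisfiable_empty : Satisfiable (∅ : Finset (Clause n)) :=
  ⟨fun _ => true, by simp⟩

lemma sdiff_card_lt {α : Type*} [DecidableEq α] {U O : Finset α} (hO : O ⊆ U)
    (hne : O.Nonempty) : (U \ O).card < U.card :=
  Finset.card_lt_card (Finset.sdiff_ssubset hO hne)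

/-- If Client's clauses are already contradictory then Waiter wins the Waiter-Client game. -/
lemma waiterWinsWC_of_unsat (q : ℕ) : ∀ (N : ℕ) (U X : Finset (Clause n)), U.card ≤ N →
    ¬ Satisfiable X → WaiterWinsWC q U X := by
  intro N
  induction N with
  | zero =>
    intro U X hU hX
    exact WaiterWinsWC.final U X (by omega) hX
  | succ N ih =>
    intro U X hU hX
    by_cases h : U.card < q + 1
    · exact WaiterWinsWC.final U X h hX
    · push Not at h
      obtain ⟨O, hO, hcard⟩ := Finset.exists_subset_card_eq h
      have hne : O.Nonempty := Finset.card_pos.mp (by omega)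
      refine WaiterWinsWC.offer U X O hO hcard fun c _ => ih _ _ ?_ ?_
      · have := sdiff_card_lt hO hne
        omega
      · exact fun hs => hX (hs.mono (Finset.subset_insert _ _))

/-- If Client's clauses are already contradictory then Client wins the Client-Waiter game. -/
lemma clientWinsCW_of_unsat (q : ℕ) : ∀ (N : ℕ) (U X : Finset (Clause n)), U.card ≤ N →
    ¬ Satisfiable X → ClientWinsCW q U X := by
  classical
  intro N
  induction N with
  | zero =>
    intro U X hU hX
    have : U = ∅ := Finset.card_eq_zero.mp (by omega)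
    subst this
    exact ClientWinsCW.final X hX
  | succ N ih =>
    intro U X hU hX
    by_cases h : U = ∅
    · subst h
      exact ClientWinsCW.final X hX
    · have hUne : U.Nonempty := Finset.nonempty_iff_ne_empty.mpr h
      refine ClientWinsCW.respond U X hUne
        (fun O => if hO : O.Nonempty then hO.choose else ∅) ?_ ?_
      · intro O _ hne _
        simp only [hne, dif_pos]
        exact hne.choose_spec
      · intro O hO hne _
        refine ih _ _ ?_ ?_
        · have := sdiff_card_lt hO hne
          omega
        · exact fun hs => hX (hs.mono (Finset.subset_insert _ _))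

lemma WaiterWinsWC.not_clientWins {q : ℕ} {U X : Finset (Clause n)} (h : WaiterWinsWC q U X) :
    ¬ ClientWinsWC q U X := by
  induction h with
  | final U X hU hX =>
    intro hc
    cases hc with
    | final _ _ _ hX' => exact hX hX'
    | respond _ _ hU' _ _ _ => omega
  | offer U X O hO hcard h ih =>
    intro hc
    cases hc with
    | final _ _ hU _ =>
      have := Finset.card_le_card hO
      omega
    | respond _ _ hU r hr h' => exact ih (r O) (hr O hO hcard) (h' O hO hcard)

lemma ClientWinsCW.not_waiterWins {q : ℕ} {U X : Finset (Clause n)} (h : ClientWinsCW q U X) :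
    ¬ WaiterWinsCW q U X := by
  induction h with
  | final X hX =>
    intro hc
    cases hc with
    | final _ hX' => exact hX hX'
    | offer _ _ O hO hne _ _ =>
      obtain ⟨c, hc⟩ := hne
      simpa using hO hc
  | respond U X hU r hr h ih =>
    intro hc
    cases hc with
    | final _ _ => exact absurd hU (by simp)
    | offer _ _ O hO hne hcard h' => exact ih O hO hne hcard (h' _ (hr O hO hne hcard))

/-- Determinacy of the Waiter-Client game. -/
lemma determined_WC (q : ℕ) : ∀ (N : ℕ) (U X : Finset (Clause n)), U.card ≤ N →
    WaiterWinsWC q U X ∨ ClientWinsWC q U X := by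
  classical
  intro N
  induction N with
  | zero =>
    intro U X hU
    by_cases hX : Satisfiable X
    · exact Or.inr (ClientWinsWC.final U X (by omega) hX)
    · exact Or.inl (WaiterWinsWC.final U X (by omega) hX)
  | succ N ih =>
    intro U X hU
    by_cases h : U.card < q + 1
    · by_cases hX : Satisfiable X
      · exact Or.inr (ClientWinsWC.final U X h hX)
      · exact Or.inl (WaiterWinsWC.final U X h hX)
    · push Not at h
      by_cases hw : ∃ O ⊆ U, O.card = q + 1 ∧ ∀ c ∈ O, WaiterWinsWC q (U \ O) (insert c X)
      · obtain ⟨O, hO, hcard, hw⟩ := hw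
        exact Or.inl (WaiterWinsWC.offer U X O hO hcard hw)
      · push Not at hw
        have hw' : ∀ O : Finset (Clause n), ∃ c : Clause n, O ⊆ U → O.card = q + 1 →
            c ∈ O ∧ ¬ WaiterWinsWC q (U \ O) (insert c X) := by
          intro O
          by_cases hO : O ⊆ U ∧ O.card = q + 1
          · obtain ⟨c, hc, hc'⟩ := hw O hO.1 hO.2
            exact ⟨c, fun _ _ => ⟨hc, hc'⟩⟩
          · exact ⟨∅, fun h1 h2 => absurd ⟨h1, h2⟩ hO⟩
        choose r hr using hw'
        refine Or.inr (ClientWinsWC.respond U X h r (fun O hO hc => (hr O hO hc).1) ?_)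
        intro O hO hc
        have hne : O.Nonempty := Finset.card_pos.mp (by omega)
        have hlt := sdiff_card_lt hO hne
        rcases ih (U \ O) (insert (r O) X) (by omega) with h1 | h1
        · exact absurd h1 (hr O hO hc).2
        · exact h1

/-- Determinacy of the Client-Waiter game. -/
lemma determined_CW (q : ℕ) : ∀ (N : ℕ) (U X : Finset (Clause n)), U.card ≤ N →
    WaiterWinsCW q U X ∨ ClientWinsCW q U X := by
  classical
  intro N
  induction N with
  | zero =>
    intro U X hU
    have : U = ∅ := Finset.card_eq_zero.mp (by omega)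
    subst this
    by_cases hX : Satisfiable X
    · exact Or.inl (WaiterWinsCW.final X hX)
    · exact Or.inr (ClientWinsCW.final X hX)
  | succ N ih =>
    intro U X hU
    by_cases h : U = ∅
    · subst h
      by_cases hX : Satisfiable X
      · exact Or.inl (WaiterWinsCW.final X hX)
      · exact Or.inr (ClientWinsCW.final X hX)
    · have hUne : U.Nonempty := Finset.nonempty_iff_ne_empty.mpr h
      by_cases hw : ∃ O ⊆ U, O.Nonempty ∧ O.card ≤ q + 1 ∧
          ∀ c ∈ O, WaiterWinsCW q (U \ O) (insert c X)
      · obtain ⟨O, hO, hne, hcard, hw⟩ := hw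
        exact Or.inl (WaiterWinsCW.offer U X O hO hne hcard hw)
      · push Not at hw
        have hw' : ∀ O : Finset (Clause n), ∃ c : Clause n, O ⊆ U → O.Nonempty →
            O.card ≤ q + 1 → c ∈ O ∧ ¬ WaiterWinsCW q (U \ O) (insert c X) := by
          intro O
          by_cases hO : O ⊆ U ∧ O.Nonempty ∧ O.card ≤ q + 1
          · obtain ⟨c, hc, hc'⟩ := hw O hO.1 hO.2.1 hO.2.2
            exact ⟨c, fun _ _ _ => ⟨hc, hc'⟩⟩
          · exact ⟨∅, fun h1 h2 h3 => absurd ⟨h1, h2, h3⟩ hO⟩
        choose r hr using hw'
        refine Or.inr (ClientWinsCW.respond U X hUne r (fun O hO hne hc => (hr O hO hne hc).1) ?_)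
        intro O hO hne hc
        have hlt := sdiff_card_lt hO hne
        rcases ih (U \ O) (insert (r O) X) (by omega) with h1 | h1
        · exact absurd h1 (hr O hO hne hc).2
        · exact h1

/-- Monotonicity of the Waiter-Client game in the bias, in the unclaimed set and in Client's
set. -/
lemma WaiterWinsWC.mono_aux {q : ℕ} {U X : Finset (Clause n)} (h : WaiterWinsWC (q + 1) U X) :
    ∀ U' X' : Finset (Clause n), U ⊆ U' → X ⊆ X' → WaiterWinsWC q U' X' := by
  classical
  induction h with
  | final U X hU hX =>
    intro U' X' _ hXX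
    exact waiterWinsWC_of_unsat q _ U' X' le_rfl fun hs => hX (hs.mono hXX)
  | offer U X O hO hcard h ih =>
    intro U' X' hUU hXX
    have hne : O.Nonempty := Finset.card_pos.mp (by omega)
    obtain ⟨e, he⟩ := hne
    refine WaiterWinsWC.offer U' X' (O.erase e) ?_ ?_ ?_
    · exact (Finset.erase_subset _ _).trans (hO.trans hUU)
    · rw [Finset.card_erase_of_mem he]
      omega
    · intro c hc
      refine ih c (Finset.mem_of_mem_erase hc) _ _ ?_ ?_
      · exact Finset.sdiff_subset_sdiff hUU (Finset.erase_subset _ _)
      · exact Finset.insert_subset_insert _ hXX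

lemma WaiterWinsWC.mono_bias {q q' : ℕ} (hq : q ≤ q') {U X : Finset (Clause n)}
    (h : WaiterWinsWC q' U X) : WaiterWinsWC q U X := by
  induction q', hq using Nat.le_induction with
  | base => exact h
  | succ m _ ih => exact ih (h.mono_aux U X (Finset.Subset.refl _) (Finset.Subset.refl _))

end Pool.Agent.W_MP_fefad7_co
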