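import Pool.Agent.W_MP_fefad7_co.LowerWC

set_option autoImplicit false

namespace Pool.Agent.W_MP_fefad7_co

open Finset Filter

/-- If the bias is the whole board, Client wins the Waiter-Client game. -/
lemma exists_clientWinsWC (k n : ℕ) : ∃ q, 1 ≤ q ∧ ClientWinsWC q (board k n) ∅ :=
  ⟨(board k n).card + 1, by omega, ClientWinsWC.final _ _ (by omega) satisfiable_empty⟩

/-- If the bias is the whole board, Waiter wins the Client-Waiter game (`k ≥ 1`). -/
lemma exists_waiterWinsCW (k n : ℕ) (hk : 1 ≤ k) :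
    ∃ q, 1 ≤ q ∧ WaiterWinsCW q (board k n) ∅ := by
  rcases (board k n).eq_empty_or_nonempty with h | h
  · refine ⟨1, le_refl 1, ?_⟩
    rw [h]
    exact WaiterWinsCW.final _ satisfiable_empty
  · refine ⟨(board k n).card + 1, by omega,
      WaiterWinsCW.offer _ _ (board k n) (Subset.refl _) h (by omega) ?_⟩
    intro c hc
    rw [Finset.sdiff_self]
    apply WaiterWinsCW.final
    have hc' : c.card = k := by
      unfold board at hc
      exact (Finset.mem_filter.mp hc).2.1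
    have hne : c.Nonempty := by
      rw [← Finset.card_pos]; omega
    obtain ⟨l, hl⟩ := hne
    refine ⟨fun _ => l.2, ?_⟩
    intro d hd
    have : d = c := by simpa using hd
    subst this
    exact ⟨l, hl, rfl⟩

lemma biasWC_spec (k n : ℕ) : 1 ≤ biasWC n k ∧ ClientWinsWC (biasWC n k) (board k n) ∅ :=
  Nat.sInf_mem (exists_clientWinsWC k n)

lemma biasCW_spec (k n : ℕ) (hk : 1 ≤ k) :
    1 ≤ biasCW n k ∧ WaiterWinsCW (biasCW n k) (board k n) ∅ :=
  Nat.sInf_mem (exists_waiterWinsCW k n hk)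

/-- The constant is below one. -/
lemma const_lt_one {k : ℕ} (hk : 1 ≤ k) : ((2 : ℝ) ^ k * Lk k)⁻¹ < 1 := by
  have h1 := xk_lt_Lk hk
  have h2 : (0 : ℝ) < 2 ^ k := by positivity
  have h3 : 1 < (2 : ℝ) ^ k * Lk k := by
    have : (2 : ℝ) ^ k * xk k = 1 := by unfold xk; field_simp
    nlinarith
  exact inv_lt_one_of_one_lt₀ h3

/-- From a first moment inequality to the normalisation used in the question. -/
lemma bias_bound (k : ℕ) (hk : 2 ≤ k) (ε : ℝ) (hε : 0 < ε) :
    ∃ ε' : ℝ, 0 < ε' ∧ ∃ n0 : ℕ, ∀ n ≥ n0, ∀ b : ℕ, 1 ≤ b →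
      (2 ^ k * n.choose k * Lk k < (1 + ε') * (n * Real.log 2 * (b + 1))) →
      1 / (n : ℝ) * n.choose k * (b : ℝ)⁻¹ / Real.log 2 ≤ ((2 : ℝ) ^ k * Lk k)⁻¹ + ε := by
  have hk1 : 1 ≤ k := by omega
  have hLpos : 0 < Lk k := Lk_pos hk1
  have hlog2 : 0 < Real.log 2 := Real.log_pos (by norm_num)
  set ε' : ℝ := min 1 (ε / 3) with hε'
  have h0 : 0 < ε' := lt_min one_pos (by positivity)
  have h1 : ε' ≤ 1 := min_le_left _ _
  have h2 : ε' ≤ ε / 3 := min_le_right _ _
  refine ⟨ε', h0, ?_⟩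
  have hfact : (0 : ℝ) < k.factorial := by exact_mod_cast Nat.factorial_pos k
  set T : ℝ := 2 * Real.log 2 * (1 / ε' + 1) * k.factorial / Lk k with hT
  refine ⟨2 * k + ⌈T⌉₊ + 1, ?_⟩
  intro n hn b hb hlt
  have hnpos : (0 : ℝ) < n := by
    have : 0 < n := by omega
    exact_mod_cast this
  have hbpos : (0 : ℝ) < b := by
    have : 0 < b := by omega
    exact_mod_cast this
  have hnT : T ≤ n := by
    calc T ≤ (⌈T⌉₊ : ℝ) := Nat.le_ceil _
      _ ≤ n := by
        have : ⌈T⌉₊ ≤ n := by omega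
        exact_mod_cast this
  have hT' : 2 * Real.log 2 * (1 / ε' + 1) * k.factorial ≤ n * Lk k := by
    rw [hT, div_le_iff₀ hLpos] at hnT
    exact hnT
  have hch := choose_ge_sq (k := k) (n := n) hk (by omega)
  have h4 : (4 : ℝ) ≤ 2 ^ k := by
    calc (4 : ℝ) = 2 ^ 2 := by norm_num
      _ ≤ 2 ^ k := pow_le_pow_right₀ (by norm_num) hk
  have h5 : (n : ℝ) ^ 2 / (k.factorial : ℝ) * Lk k ≤ 2 ^ k * n.choose k * Lk k := by
    apply mul_le_mul_of_nonneg_right _ hLpos.le
    calc (n : ℝ) ^ 2 / (k.factorial : ℝ) = 4 * ((n : ℝ) ^ 2 / (4 * (k.factorial : ℝ))) := by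
          field_simp
      _ ≤ 2 ^ k * (n.choose k : ℝ) := by
          apply mul_le_mul h4 hch (by positivity) (by positivity)
  -- the bias is large
  have hbig : 1 / ε' ≤ (b : ℝ) := by
    by_contra hcon
    push Not at hcon
    have h6 : (n : ℝ) ^ 2 / (k.factorial : ℝ) * Lk k < 2 * (n * Real.log 2 * (1 / ε' + 1)) := by
      calc (n : ℝ) ^ 2 / (k.factorial : ℝ) * Lk k ≤ 2 ^ k * n.choose k * Lk k := h5
        _ < (1 + ε') * (n * Real.log 2 * (b + 1)) := hlt
        _ ≤ 2 * (n * Real.log 2 * (1 / ε' + 1)) := by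
            apply mul_le_mul (by linarith) _ (by positivity) (by norm_num)
            apply mul_le_mul_of_nonneg_left (by linarith) (by positivity)
    have h7 : (n : ℝ) ^ 2 / (k.factorial : ℝ) * Lk k = n * (n * Lk k) / k.factorial := by
      field_simp
    rw [h7, div_lt_iff₀ hfact] at h6
    have h8 : (n : ℝ) * (2 * Real.log 2 * (1 / ε' + 1) * k.factorial) ≤ n * (n * Lk k) :=
      mul_le_mul_of_nonneg_left hT' hnpos.le
    linarith
  -- main estimate
  have hb1 : (b : ℝ) + 1 ≤ (1 + ε') * b := by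
    have : 1 ≤ ε' * b := by
      have := mul_le_mul_of_nonneg_left hbig h0.le
      rwa [mul_one_div, div_self h0.ne'] at this
    linarith
  set P : ℝ := (2 : ℝ) ^ k * Lk k with hP
  have hPpos : 0 < P := by positivity
  have hc1 : P⁻¹ < 1 := const_lt_one hk1
  have h9 : P * n.choose k < (1 + ε') ^ 2 * (n * Real.log 2 * b) := by
    calc P * n.choose k = 2 ^ k * n.choose k * Lk k := by rw [hP]; ring
      _ < (1 + ε') * (n * Real.log 2 * (b + 1)) := hlt
      _ ≤ (1 + ε') * (n * Real.log 2 * ((1 + ε') * b)) := by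
          apply mul_le_mul_of_nonneg_left _ (by linarith)
          apply mul_le_mul_of_nonneg_left hb1 (by positivity)
      _ = _ := by ring
  have h10 : 1 / (n : ℝ) * n.choose k * (b : ℝ)⁻¹ / Real.log 2 =
      n.choose k / (n * Real.log 2 * b) := by
    field_simp
  rw [h10]
  have h11 : (n.choose k : ℝ) / (n * Real.log 2 * b) ≤ (1 + ε') ^ 2 * P⁻¹ := by
    rw [div_le_iff₀ (by positivity)]
    have h12 : (n.choose k : ℝ) = P⁻¹ * (P * n.choose k) := by
      field_simp
    rw [h12]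
    have h13 : P⁻¹ * (P * n.choose k) ≤ P⁻¹ * ((1 + ε') ^ 2 * (n * Real.log 2 * b)) :=
      mul_le_mul_of_nonneg_left h9.le (by positivity)
    calc P⁻¹ * (P * n.choose k) ≤ P⁻¹ * ((1 + ε') ^ 2 * (n * Real.log 2 * b)) := h13
      _ = _ := by ring
  refine h11.trans ?_
  have h14 : (1 + ε') ^ 2 ≤ 1 + ε := by nlinarith
  have h15 : 0 < P⁻¹ := by positivity
  nlinarith

/-- **Waiter-Client**: upper half of the conjectured asymptotics. -/
theorem biasWC_first_moment (k : ℕ) (hk : 2 ≤ k) (ε : ℝ) (hε : 0 < ε) :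
    ∀ᶠ n : ℕ in atTop,
      1 / (n : ℝ) * n.choose k * (biasWC n k : ℝ)⁻¹ / Real.log 2 ≤
        ((2 : ℝ) ^ k * Lk k)⁻¹ + ε := by
  obtain ⟨ε', hε', n1, h1⟩ := bias_bound k hk ε hε
  obtain ⟨n2, h2⟩ := waiterWinsWC_of_first_moment k hk ε' hε'
  filter_upwards [eventually_ge_atTop (max n1 n2)] with n hn
  have hspec := biasWC_spec k n
  apply h1 n (le_trans (le_max_left _ _) hn) _ hspec.1
  by_contra hcon
  push Not at hcon
  have := h2 n (le_trans (le_max_right _ _) hn) (biasWC n k) hcon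
  exact this.not_clientWins hspec.2

/-- **Client-Waiter**: upper half of the conjectured asymptotics. -/
theorem biasCW_first_moment (k : ℕ) (hk : 2 ≤ k) (ε : ℝ) (hε : 0 < ε) :
    ∀ᶠ n : ℕ in atTop,
      1 / (n : ℝ) * n.choose k * (biasCW n k : ℝ)⁻¹ / Real.log 2 ≤
        ((2 : ℝ) ^ k * Lk k)⁻¹ + ε := by
  obtain ⟨ε', hε', n1, h1⟩ := bias_bound k hk ε hε
  filter_upwards [eventually_ge_atTop (max n1 1)] with n hn
  have hspec := biasCW_spec k n (by omega)
  apply h1 n (le_trans (le_max_left _ _) hn) _ hspec.1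
  by_contra hcon
  push Not at hcon
  have hn1 : 1 ≤ n := le_trans (le_max_right _ _) hn
  have hlog2 : 0 < Real.log 2 := Real.log_pos (by norm_num)
  have hnpos : (0 : ℝ) < n := by exact_mod_cast hn1
  have hlt : n * Real.log 2 * ((biasCW n k : ℝ) + 1) < 2 ^ k * n.choose k * Lk k := by
    refine lt_of_lt_of_le ?_ hcon
    have : 0 < (n : ℝ) * Real.log 2 * ((biasCW n k : ℝ) + 1) := by positivity
    nlinarith
  exact (clientWinsCW_of_first_moment k n (biasCW n k) (by omega) hlt).not_waiterWins hspec.2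

end Pool.Agent.W_MP_fefad7_co
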