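import Pool.Agent.W_MP_fefad7_co.Potential

set_option autoImplicit false

namespace Pool.Agent.W_MP_fefad7_co

open Finset

variable {n : ℕ}

lemma mem_board {k : ℕ} {c : Clause n} : c ∈ board k n ↔
    c.card = k ∧ ∀ l ∈ c, ∀ l' ∈ c, l.1 = l'.1 → l = l' := by
  simp [board]

/-- The literals made false by `s`, as an embedding of the variables. -/
def falseLit (s : Fin n → Bool) : Fin n ↪ Literal n :=
  ⟨fun i => (i, !(s i)), fun i j h => (Prod.mk.inj h).1⟩

lemma falseLit_apply (s : Fin n → Bool) (i : Fin n) : falseLit s i = (i, !(s i)) := rfl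

lemma board_inter_viol (k : ℕ) (s : Fin n → Bool) :
    board k n ∩ viol s = ((Finset.univ : Finset (Fin n)).powersetCard k).map
      ⟨fun S => S.map (falseLit s), Finset.map_injective _⟩ := by
  ext c
  rw [Finset.mem_inter, mem_board, mem_viol, Finset.mem_map]
  constructor
  · rintro ⟨⟨hcard, hinj⟩, hv⟩
    have hl : ∀ l ∈ c, l = falseLit s l.1 := by
      intro l hl
      rw [falseLit_apply]
      have := hv l hl
      ext
      · rfl
      · simp only
        cases h1 : s l.1 <;> cases h2 : l.2 <;> simp_all
    refine ⟨c.image Prod.fst, ?_, ?_⟩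
    · rw [Finset.mem_powersetCard]
      refine ⟨Finset.subset_univ _, ?_⟩
      rw [Finset.card_image_of_injOn, hcard]
      intro l hl' l' hl'' h
      exact hinj l hl' l' hl'' h
    · ext l
      simp only [Function.Embedding.coeFn_mk, Finset.mem_map, Finset.mem_image]
      constructor
      · rintro ⟨i, ⟨l', hl', rfl⟩, rfl⟩
        rw [← hl l' hl']
        exact hl'
      · intro hlc
        exact ⟨l.1, ⟨l, hlc, rfl⟩, (hl l hlc).symm⟩
  · rintro ⟨S, hS, rfl⟩
    rw [Finset.mem_powersetCard] at hS
    simp only [Function.Embedding.coeFn_mk]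
    refine ⟨⟨by rw [Finset.card_map, hS.2], ?_⟩, ?_⟩
    · intro l hl l' hl' h
      rw [Finset.mem_map] at hl hl'
      obtain ⟨i, _, rfl⟩ := hl
      obtain ⟨j, _, rfl⟩ := hl'
      have : i = j := h
      rw [this]
    · intro l hl
      rw [Finset.mem_map] at hl
      obtain ⟨i, _, rfl⟩ := hl
      rw [falseLit_apply]
      simp

lemma card_board_inter_viol (k : ℕ) (s : Fin n → Bool) :
    (board k n ∩ viol s).card = n.choose k := by
  rw [board_inter_viol, Finset.card_map, Finset.card_powersetCard, Finset.card_univ,
    Fintype.card_fin]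

lemma card_filter_viol {k : ℕ} {c : Clause n} (hc : c ∈ board k n) :
    (Finset.univ.filter fun s : Fin n → Bool => c ∈ viol s).card = 2 ^ (n - k) := by
  classical
  rw [mem_board] at hc
  set V : Finset (Fin n) := c.image Prod.fst with hV
  have hVcard : V.card = k := by
    rw [hV, Finset.card_image_of_injOn, hc.1]
    intro l hl' l' hl'' h
    exact hc.2 l hl' l' hl'' h
  set t : Fin n → Finset Bool := fun i => Finset.univ.filter fun b => ∀ l ∈ c, l.1 = i → b ≠ l.2
    with ht
  have h1 : (Finset.univ.filter fun s : Fin n → Bool => c ∈ viol s) = Fintype.piFinset t := by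
    ext s
    rw [Finset.mem_filter, Fintype.mem_piFinset, mem_viol]
    simp only [Finset.mem_univ, true_and, ht, Finset.mem_filter]
    constructor
    · intro h i l hl hli
      rw [← hli]
      exact h l hl
    · intro h l hl
      exact h l.1 l hl rfl
  rw [h1, Fintype.card_piFinset]
  have h2 : ∀ i ∈ V, (t i).card = 1 := by
    intro i hi
    rw [hV, Finset.mem_image] at hi
    obtain ⟨l, hl, rfl⟩ := hi
    rw [Finset.card_eq_one]
    refine ⟨!l.2, ?_⟩
    ext b
    simp only [ht, Finset.mem_filter, Finset.mem_univ, true_and, Finset.mem_singleton]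
    constructor
    · intro h
      have := h l hl rfl
      cases b <;> cases h3 : l.2 <;> simp_all
    · rintro rfl l' hl' h'
      rw [hc.2 l' hl' l hl h']
      simp
  have h3 : ∀ i ∈ Vᶜ, (t i).card = 2 := by
    intro i hi
    rw [Finset.mem_compl] at hi
    have : t i = Finset.univ := by
      ext b
      simp only [ht, Finset.mem_filter, Finset.mem_univ, true_and, iff_true]
      intro l hl hli
      exact absurd (Finset.mem_image.mpr ⟨l, hl, hli⟩) hi
    rw [this]
    simp
  rw [← Finset.prod_mul_prod_compl V, Finset.prod_congr rfl h2, Finset.prod_congr rfl h3,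
    Finset.prod_const_one, one_mul, Finset.prod_const, Finset.card_compl, Fintype.card_fin, hVcard]

lemma card_board (k n : ℕ) : (board k n).card = 2 ^ k * n.choose k := by
  classical
  rcases Nat.lt_or_ge n k with hlt | hle
  · rw [Nat.choose_eq_zero_of_lt hlt, mul_zero, Finset.card_eq_zero]
    ext c
    simp only [Finset.notMem_empty, iff_false]
    intro hc
    rw [mem_board] at hc
    have h1 : (c.image Prod.fst).card = k := by
      rw [Finset.card_image_of_injOn, hc.1]
      intro l hl' l' hl'' h
      exact hc.2 l hl' l' hl'' h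
    have h2 := Finset.card_le_univ (c.image Prod.fst)
    rw [Fintype.card_fin] at h2
    omega
  · -- double counting
    have h1 : ∑ s : Fin n → Bool, (board k n ∩ viol s).card =
        ∑ c ∈ board k n, (Finset.univ.filter fun s : Fin n → Bool => c ∈ viol s).card := by
      have e1 : ∀ s : Fin n → Bool, (board k n ∩ viol s).card =
          ∑ c ∈ board k n, if c ∈ viol s then 1 else 0 := by
        intro s
        rw [← Finset.filter_mem_eq_inter, Finset.card_filter]
      simp_rw [e1]
      rw [Finset.sum_comm]
      refine Finset.sum_congr rfl fun c _ => ?_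
      rw [Finset.card_filter]
    have h2 : ∑ s : Fin n → Bool, (board k n ∩ viol s).card = 2 ^ n * n.choose k := by
      simp_rw [card_board_inter_viol]
      rw [Finset.sum_const, smul_eq_mul, Finset.card_univ, Fintype.card_fun, Fintype.card_bool,
        Fintype.card_fin]
    have h3 : ∑ c ∈ board k n, (Finset.univ.filter fun s : Fin n → Bool => c ∈ viol s).card =
        (board k n).card * 2 ^ (n - k) := by
      rw [Finset.sum_congr rfl fun c hc => card_filter_viol hc, Finset.sum_const, smul_eq_mul]
    rw [h2, h3] at h1
    have h4 : 2 ^ n = 2 ^ k * 2 ^ (n - k) := by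
      rw [← pow_add]
      congr 1
      omega
    rw [h4] at h1
    have h5 : 0 < 2 ^ (n - k) := by positivity
    apply Nat.eq_of_mul_eq_mul_right h5
    rw [← h1]
    ring

end Pool.Agent.W_MP_fefad7_co
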