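import Mathlib

/-!
# Waiter-Client and Client-Waiter k-SAT games

A literal over `n` Boolean variables is a pair `(i, b)` (variable, required value), a clause is a
finite set of literals.
-/

set_option autoImplicit false

namespace Pool.Agent.W_MP_fefad7_co

/-- A literal over the variables `Fin n`: the pair `(i, b)` is true under `s` iff `s i = b`. -/
abbrev Literal (n : ℕ) := Fin n × Bool

/-- A clause is the disjunction of a finite set of literals. -/
abbrev Clause (n : ℕ) := Finset (Literal n)

/-- The board: all clauses made of exactly `k` literals whose variables are pairwise distinct. -/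
def board (k n : ℕ) : Finset (Clause n) :=
  Finset.univ.filter fun c => c.card = k ∧ ∀ l ∈ c, ∀ l' ∈ c, l.1 = l'.1 → l = l'

/-- The conjunction of the clauses in `F` is satisfiable. -/
def Satisfiable {n : ℕ} (F : Finset (Clause n)) : Prop :=
  ∃ s : Fin n → Bool, ∀ c ∈ F, ∃ l ∈ c, s l.1 = l.2

/-- `WaiterWinsWC q U X`: in the `(1:q)` Waiter-Client game in which the clauses in `U` are still
unclaimed and Client has claimed the clauses in `X`, Waiter has a strategy that makes the
conjunction of Client's clauses unsatisfiable at the end. -/
inductive WaiterWinsWC {n : ℕ} (q : ℕ) : Finset (Clause n) → Finset (Clause n) → Prop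
  | final (U X : Finset (Clause n)) (hU : U.card < q + 1) (hX : ¬ Satisfiable X) :
      WaiterWinsWC q U X
  | offer (U X O : Finset (Clause n)) (hO : O ⊆ U) (hcard : O.card = q + 1)
      (h : ∀ c ∈ O, WaiterWinsWC q (U \ O) (insert c X)) : WaiterWinsWC q U X

/-- `ClientWinsWC q U X`: same position, but Client has a strategy that keeps the conjunction of
his clauses satisfiable until the end. -/
inductive ClientWinsWC {n : ℕ} (q : ℕ) : Finset (Clause n) → Finset (Clause n) → Prop
  | final (U X : Finset (Clause n)) (hU : U.card < q + 1) (hX : Satisfiable X) :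
      ClientWinsWC q U X
  | respond (U X : Finset (Clause n)) (hU : q + 1 ≤ U.card)
      (r : Finset (Clause n) → Clause n) (hr : ∀ O ⊆ U, O.card = q + 1 → r O ∈ O)
      (h : ∀ O ⊆ U, O.card = q + 1 → ClientWinsWC q (U \ O) (insert (r O) X)) :
      ClientWinsWC q U X

/-- `ClientWinsCW q U X`: in the `(1:q)` Client-Waiter game in which the clauses in `U` are still
unclaimed and Client has claimed the clauses in `X`, Client has a strategy that makes the
conjunction of his clauses unsatisfiable at the end. -/
inductive ClientWinsCW {n : ℕ} (q : ℕ) : Finset (Clause n) → Finset (Clause n) → Prop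
  | final (X : Finset (Clause n)) (hX : ¬ Satisfiable X) : ClientWinsCW q ∅ X
  | respond (U X : Finset (Clause n)) (hU : U.Nonempty)
      (r : Finset (Clause n) → Clause n)
      (hr : ∀ O ⊆ U, O.Nonempty → O.card ≤ q + 1 → r O ∈ O)
      (h : ∀ O ⊆ U, O.Nonempty → O.card ≤ q + 1 → ClientWinsCW q (U \ O) (insert (r O) X)) :
      ClientWinsCW q U X

/-- `WaiterWinsCW q U X`: same position, but Waiter has a strategy that keeps the conjunction of
Client's clauses satisfiable until the end. -/
inductive WaiterWinsCW {n : ℕ} (q : ℕ) : Finset (Clause n) → Finset (Clause n) → Prop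
  | final (X : Finset (Clause n)) (hX : Satisfiable X) : WaiterWinsCW q ∅ X
  | offer (U X O : Finset (Clause n)) (hO : O ⊆ U) (hne : O.Nonempty) (hcard : O.card ≤ q + 1)
      (h : ∀ c ∈ O, WaiterWinsCW q (U \ O) (insert c X)) : WaiterWinsCW q U X

/-- Threshold bias of the Waiter-Client game: the least `q ≥ 1` for which Client wins. -/
noncomputable def biasWC (n k : ℕ) : ℕ := sInf {q | 1 ≤ q ∧ ClientWinsWC q (board k n) ∅}

/-- Threshold bias of the Client-Waiter game: the least `q ≥ 1` for which Waiter wins. -/
noncomputable def biasCW (n k : ℕ) : ℕ := sInf {q | 1 ≤ q ∧ WaiterWinsCW q (board k n) ∅}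

end Pool.Agent.W_MP_fefad7_co
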