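import Pool.Agent.W_MP_fefad7_co.PotentialCW
import Pool.Agent.W_MP_fefad7_co.Count

set_option autoImplicit false

namespace Pool.Agent.W_MP_fefad7_co

open Finset Filter

/-- `Lk k = log (2^k / (2^k - 1))`, minus the logarithm of the probability that a random assignment
satisfies a given `k`-clause. -/
noncomputable def Lk (k : ℕ) : ℝ := Real.log ((2 : ℝ) ^ k / ((2 : ℝ) ^ k - 1))

lemma two_pow_ge {k : ℕ} (hk : 1 ≤ k) : (2 : ℝ) ≤ 2 ^ k := by
  calc (2 : ℝ) = 2 ^ 1 := by norm_num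
    _ ≤ 2 ^ k := pow_le_pow_right₀ (by norm_num) hk

/-- The exposure variable `x = 2^{-k}`. -/
noncomputable def xk (k : ℕ) : ℝ := 1 / (2 : ℝ) ^ k

lemma xk_pos (k : ℕ) : 0 < xk k := by unfold xk; positivity

lemma xk_le_half {k : ℕ} (hk : 1 ≤ k) : xk k ≤ 1 / 2 := by
  unfold xk
  exact one_div_le_one_div_of_le (by norm_num) (two_pow_ge hk)

lemma Lk_eq {k : ℕ} (hk : 1 ≤ k) : Lk k = -Real.log (1 - xk k) := by
  have h2 := two_pow_ge hk
  have hx := xk_le_half hk
  unfold Lk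
  rw [← Real.log_inv]
  congr 1
  unfold xk
  have h0 : (2 : ℝ) ^ k ≠ 0 := by positivity
  have h1 : (2 : ℝ) ^ k - 1 ≠ 0 := by linarith
  rw [eq_comm, inv_eq_one_div, div_eq_div_iff]
  · field_simp
  · have : 1 - 1 / (2 : ℝ) ^ k = ((2 : ℝ) ^ k - 1) / 2 ^ k := by field_simp
    rw [this]
    exact div_ne_zero h1 h0
  · exact h1

lemma xk_lt_Lk {k : ℕ} (hk : 1 ≤ k) : xk k < Lk k := by
  rw [Lk_eq hk]
  have hx := xk_le_half hk
  have hx0 := xk_pos k
  have := Real.log_lt_sub_one_of_pos (x := 1 - xk k) (by linarith) (by linarith)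
  linarith

lemma Lk_pos {k : ℕ} (hk : 1 ≤ k) : 0 < Lk k := (xk_pos k).trans (xk_lt_Lk hk)

/-- The exponent `lam = 1/(1-x)` used in the potential. -/
noncomputable def lamk (k : ℕ) : ℝ := 1 / (1 - xk k)

/-- The exponent `B0 = log (1-x) + lam x`. -/
noncomputable def B0k (k : ℕ) : ℝ := lamk k * xk k - Lk k

lemma lamk_pos {k : ℕ} (hk : 1 ≤ k) : 0 < lamk k := by
  have := xk_le_half hk
  unfold lamk
  apply one_div_pos.mpr
  linarith

lemma lamk_ge_one {k : ℕ} (hk : 1 ≤ k) : 1 ≤ lamk k := by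
  have := xk_le_half hk
  have h0 := xk_pos k
  unfold lamk
  rw [le_div_iff₀ (by linarith)]
  linarith

lemma lamk_le_two {k : ℕ} (hk : 1 ≤ k) : lamk k ≤ 2 := by
  have := xk_le_half hk
  unfold lamk
  rw [div_le_iff₀ (by linarith)]
  linarith

lemma B0k_nonneg {k : ℕ} (hk : 1 ≤ k) : 0 ≤ B0k k := by
  have hx := xk_le_half hk
  have h1 : (0 : ℝ) < 1 - xk k := by linarith
  unfold B0k
  rw [Lk_eq hk, ← Real.log_inv]
  have h2 : Real.log ((1 - xk k)⁻¹) ≤ (1 - xk k)⁻¹ - 1 :=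
    Real.log_le_sub_one_of_pos (inv_pos.mpr h1)
  have h3 : (1 - xk k)⁻¹ - 1 = lamk k * xk k := by
    unfold lamk
    field_simp
    ring
  linarith

lemma exp_mul_le_B0k {k : ℕ} (hk : 1 ≤ k) (f : ℝ) (_hf0 : 0 ≤ f) (hf1 : f ≤ 1) :
    Real.exp (lamk k * f) * (1 - f) ≤ Real.exp (B0k k) := by
  have hx := xk_le_half hk
  have h1 : (0 : ℝ) < 1 - xk k := by linarith
  rcases hf1.eq_or_lt with h | h
  · rw [h]
    simp only [sub_self, mul_zero]
    exact (Real.exp_pos _).le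
  · have hf : 0 < 1 - f := by linarith
    have e1 : 1 - f = Real.exp (Real.log (1 - f)) := (Real.exp_log hf).symm
    rw [e1, ← Real.exp_add]
    apply Real.exp_le_exp.mpr
    have h2 : Real.log ((1 - f) / (1 - xk k)) ≤ (1 - f) / (1 - xk k) - 1 :=
      Real.log_le_sub_one_of_pos (div_pos hf h1)
    rw [Real.log_div hf.ne' h1.ne'] at h2
    have h3 : (1 - f) / (1 - xk k) - 1 = lamk k * (xk k - f) := by
      unfold lamk
      field_simp
      ring
    unfold B0k
    rw [Lk_eq hk]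
    linarith

lemma pot_board (k n : ℕ) (a b : ℝ) : pot a b (board k n) ∅ =
    (2 : ℝ) ^ n * Real.exp (-a * n.choose k + b * (2 ^ k * n.choose k)) := by
  unfold pot
  have h1 : sols (∅ : Finset (Clause n)) = Finset.univ := by
    ext s
    simp [mem_sols]
  rw [h1, Finset.sum_congr rfl (g := fun _ => Real.exp (-a * n.choose k + b * (2 ^ k * n.choose k)))
    (fun s _ => by rw [card_board_inter_viol, card_board]; push_cast; rfl),
    Finset.sum_const, nsmul_eq_mul, Finset.card_univ, Fintype.card_fun, Fintype.card_bool,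
    Fintype.card_fin]
  push_cast
  rfl

/-- **First moment bound for the Client-Waiter game.** -/
theorem clientWinsCW_of_first_moment (k n q : ℕ) (hk : 1 ≤ k)
    (h : (n : ℝ) * Real.log 2 * (q + 1) < 2 ^ k * n.choose k * Lk k) :
    ClientWinsCW q (board k n) ∅ := by
  refine clientWinsCW_of_pot q (lamk k) (B0k k) (exp_mul_le_B0k hk) _ (board k n) ∅ le_rfl ?_
  rw [pot_board]
  have hm : (0 : ℝ) < ((q + 1 : ℕ) : ℝ) := by positivity
  have e1 : (2 : ℝ) ^ n = Real.exp (n * Real.log 2) := by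
    rw [mul_comm, Real.exp_mul, Real.exp_log (by norm_num), Real.rpow_natCast]
  rw [e1, ← Real.exp_add, Real.exp_lt_one_iff]
  have hx : xk k * 2 ^ k = 1 := by unfold xk; field_simp
  have e2 : (n : ℝ) * Real.log 2 + (-(lamk k / ((q + 1 : ℕ) : ℝ)) * n.choose k +
      B0k k / ((q + 1 : ℕ) : ℝ) * (2 ^ k * n.choose k)) =
      (n * Real.log 2 * ((q + 1 : ℕ) : ℝ) - 2 ^ k * n.choose k * Lk k) / ((q + 1 : ℕ) : ℝ) := by
    rw [eq_div_iff hm.ne']
    have e3 : lamk k * (n.choose k : ℝ) = lamk k * (xk k * 2 ^ k) * n.choose k := by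
      rw [hx]; ring
    unfold B0k
    have e4 : ((n : ℝ) * Real.log 2 + (-(lamk k / ((q + 1 : ℕ) : ℝ)) * n.choose k +
      (lamk k * xk k - Lk k) / ((q + 1 : ℕ) : ℝ) * (2 ^ k * n.choose k))) * ((q + 1 : ℕ) : ℝ) =
      n * Real.log 2 * ((q + 1 : ℕ) : ℝ) - lamk k * (n.choose k : ℝ) +
      (lamk k * xk k - Lk k) * (2 ^ k * n.choose k) := by
      field_simp
      ring
    rw [e4, e3]
    ring
  rw [e2]
  apply div_neg_of_neg_of_pos _ hm
  push_cast
  linarith

end Pool.Agent.W_MP_fefad7_co
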