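import Pool.Agent.W_MP_fefad7_co.Lower

set_option autoImplicit false

namespace Pool.Agent.W_MP_fefad7_co

open Finset Filter

lemma choose_ge_sq {k n : ℕ} (hk : 2 ≤ k) (hn : 2 * k ≤ n) :
    (n : ℝ) ^ 2 / (4 * k.factorial) ≤ n.choose k := by
  have h1 : (((n + 1 - k : ℕ) : ℝ)) ^ k / k.factorial ≤ n.choose k := Nat.pow_le_choose k n
  have h2 : (n : ℝ) / 2 ≤ ((n + 1 - k : ℕ) : ℝ) := by
    rw [Nat.cast_sub (by omega)]
    push_cast
    have : (2 * k : ℝ) ≤ n := by exact_mod_cast hn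
    linarith
  have h3 : (1 : ℝ) ≤ (n : ℝ) / 2 := by
    have : (4 : ℝ) ≤ n := by
      have : 4 ≤ n := by omega
      exact_mod_cast this
    linarith
  have h4 : ((n : ℝ) / 2) ^ 2 ≤ (((n + 1 - k : ℕ) : ℝ)) ^ k := by
    calc ((n : ℝ) / 2) ^ 2 ≤ ((n : ℝ) / 2) ^ k := pow_le_pow_right₀ h3 hk
      _ ≤ (((n + 1 - k : ℕ) : ℝ)) ^ k := pow_le_pow_left₀ (by linarith) h2 k
  have hf : (0 : ℝ) < k.factorial := by exact_mod_cast Nat.factorial_pos k
  calc (n : ℝ) ^ 2 / (4 * k.factorial) = ((n : ℝ) / 2) ^ 2 / k.factorial := by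
        field_simp
        ring
    _ ≤ (((n + 1 - k : ℕ) : ℝ)) ^ k / k.factorial :=
        div_le_div_of_nonneg_right h4 hf.le
    _ ≤ n.choose k := h1

/-- Core form of the first moment bound for the Waiter-Client game, for a large bias. -/
lemma waiterWinsWC_core (k : ℕ) (hk : 1 ≤ k) (ε : ℝ) (hε : 0 < ε) (hε1 : ε ≤ 1) :
    ∃ n0 m0 : ℕ, ∀ n ≥ n0, ∀ q : ℕ, m0 ≤ q + 1 →
      (1 + ε) * (n * Real.log 2 * (q + 1)) ≤ 2 ^ k * n.choose k * Lk k →
      WaiterWinsWC q (board k n) ∅ := by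
  set L : ℝ := Lk k with hL
  have hLpos : 0 < L := Lk_pos hk
  have hlog2 : 0 < Real.log 2 := Real.log_pos (by norm_num)
  have hlog2' : Real.log 2 < 1 := by
    have := Real.log_two_lt_d9
    linarith
  have hL1 : L < 1 := by
    rw [hL, Lk_eq hk, ← Real.log_inv]
    have hx := xk_le_half hk
    have h1 : (1 - xk k)⁻¹ ≤ 2 := by
      rw [inv_le_comm₀ (by linarith) (by norm_num)]
      linarith
    have h2 : 0 < (1 - xk k)⁻¹ := inv_pos.mpr (by linarith)
    calc Real.log ((1 - xk k)⁻¹) ≤ Real.log 2 := Real.log_le_log h2 h1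
      _ < 1 := hlog2'
  set E : ℝ := Real.exp 2 with hE
  have hEpos : 0 < E := Real.exp_pos _
  have hE1 : 1 ≤ E := by
    rw [hE, ← Real.exp_zero]
    exact Real.exp_le_exp.mpr (by norm_num)
  set th : ℝ := ε * L / (8 * E) with hth
  have hthpos : 0 < th := by positivity
  have hth1 : th ≤ 1 := by
    rw [hth, div_le_one (by positivity)]
    nlinarith
  set K : ℝ := lamk k * Real.exp (lamk k / th) with hK
  have hlampos := lamk_pos hk
  have hlam1 := lamk_ge_one hk
  have hlam2 := lamk_le_two hk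
  have hexplam : Real.exp (lamk k) ≤ E := Real.exp_le_exp.mpr hlam2
  have hKpos : 0 < K := by positivity
  refine ⟨⌈2 * K / (ε * Real.log 2)⌉₊ + 1, ⌈(16 * E / (ε * L)) ^ 2⌉₊ + 1, ?_⟩
  intro n hn q hq hcond
  have hmpos : (0 : ℝ) < ((q + 1 : ℕ) : ℝ) := by exact_mod_cast Nat.succ_pos q
  have hmge : (16 * E / (ε * L)) ^ 2 ≤ ((q + 1 : ℕ) : ℝ) := by
    calc (16 * E / (ε * L)) ^ 2 ≤ (⌈(16 * E / (ε * L)) ^ 2⌉₊ : ℝ) := Nat.le_ceil _
      _ ≤ ((q + 1 : ℕ) : ℝ) := by
        have : ⌈(16 * E / (ε * L)) ^ 2⌉₊ ≤ q + 1 := by omega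
        exact_mod_cast this
  have hsqrt : 16 * E / (ε * L) ≤ Real.sqrt ((q + 1 : ℕ) : ℝ) := by
    apply Real.le_sqrt_of_sq_le hmge
  have hnK : 2 * K / (ε * Real.log 2) < n := by
    calc 2 * K / (ε * Real.log 2) ≤ (⌈2 * K / (ε * Real.log 2)⌉₊ : ℝ) := Nat.le_ceil _
      _ < n := by
        have : ⌈2 * K / (ε * Real.log 2)⌉₊ < n := by omega
        exact_mod_cast this
  refine waiterWinsWC_of_pot q (lamk k) th (Real.exp (B0k k)) (B0k k + ε * L / 4) hlampos hthpos
    hth1 (by have := B0k_nonneg hk; positivity) (exp_mul_le_B0k hk) ?_ _ (board k n) ∅ le_rfl ?_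
  · -- the error terms
    have h1 : th / lamk k * Real.exp (lamk k) ≤ ε * L / 8 := by
      calc th / lamk k * Real.exp (lamk k) ≤ th / 1 * E := by
            apply mul_le_mul _ hexplam (Real.exp_pos _).le (by positivity)
            exact div_le_div_of_nonneg_left hthpos.le one_pos hlam1
        _ = ε * L / 8 := by
            rw [hth]
            field_simp
    have hsqpos : 0 < Real.sqrt ((q + 1 : ℕ) : ℝ) := Real.sqrt_pos.mpr hmpos
    have h2 : lamk k * Real.exp (lamk k) / Real.sqrt ((q + 1 : ℕ) : ℝ) ≤ ε * L / 8 := by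
      rw [div_le_iff₀ hsqpos]
      calc lamk k * Real.exp (lamk k) ≤ 2 * E := mul_le_mul hlam2 hexplam (Real.exp_pos _).le
            (by norm_num)
        _ = ε * L / 8 * (16 * E / (ε * L)) := by
            field_simp
            ring
        _ ≤ ε * L / 8 * Real.sqrt ((q + 1 : ℕ) : ℝ) :=
            mul_le_mul_of_nonneg_left hsqrt (by positivity)
    rw [Real.exp_add]
    have h3 : 1 ≤ Real.exp (B0k k) := by
      rw [← Real.exp_zero]
      exact Real.exp_le_exp.mpr (B0k_nonneg hk)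
    have h4 : 1 + ε * L / 4 ≤ Real.exp (ε * L / 4) := by
      have := Real.add_one_le_exp (ε * L / 4)
      linarith
    have h5 : 0 < ε * L / 4 := by positivity
    nlinarith
  · rw [pot_board]
    have e1 : (2 : ℝ) ^ n = Real.exp (n * Real.log 2) := by
      rw [mul_comm, Real.exp_mul, Real.exp_log (by norm_num), Real.rpow_natCast]
    rw [e1, ← Real.exp_add, ← Real.exp_add, Real.exp_lt_one_iff]
    have hx : xk k * 2 ^ k = 1 := by unfold xk; field_simp
    have e2 : -(lamk k / ((q + 1 : ℕ) : ℝ)) * n.choose k +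
        (B0k k + ε * L / 4) / ((q + 1 : ℕ) : ℝ) * (2 ^ k * n.choose k) =
        -((1 - ε / 4) * (2 ^ k * n.choose k * L / ((q + 1 : ℕ) : ℝ))) := by
      have e3 : lamk k * (n.choose k : ℝ) = lamk k * (xk k * 2 ^ k) * n.choose k := by
        rw [hx]; ring
      have e4 : B0k k = lamk k * xk k - L := rfl
      rw [e4]
      rw [eq_comm, ← sub_eq_zero]
      have e5 : -((1 - ε / 4) * (2 ^ k * (n.choose k : ℝ) * L / ((q + 1 : ℕ) : ℝ))) -
          (-(lamk k / ((q + 1 : ℕ) : ℝ)) * n.choose k +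
          (lamk k * xk k - L + ε * L / 4) / ((q + 1 : ℕ) : ℝ) * (2 ^ k * n.choose k)) =
          (lamk k * (n.choose k : ℝ) - lamk k * (xk k * 2 ^ k) * n.choose k) /
            ((q + 1 : ℕ) : ℝ) := by
        field_simp
        ring
      rw [e5, e3, sub_self, zero_div]
    rw [e2]
    have h6 : (1 + ε) * (n * Real.log 2) ≤ 2 ^ k * n.choose k * L / ((q + 1 : ℕ) : ℝ) := by
      rw [le_div_iff₀ hmpos]
      push_cast
      linarith
    have h7 : (1 - ε / 4) * ((1 + ε) * (n * Real.log 2)) ≤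
        (1 - ε / 4) * (2 ^ k * n.choose k * L / ((q + 1 : ℕ) : ℝ)) :=
      mul_le_mul_of_nonneg_left h6 (by linarith)
    have hn0 : (0 : ℝ) ≤ n := by positivity
    have h8 : (1 + ε / 2) * (n * Real.log 2) ≤ (1 - ε / 4) * ((1 + ε) * (n * Real.log 2)) := by
      have h9 : 0 ≤ (n : ℝ) * Real.log 2 := by positivity
      have h10 : 1 + ε / 2 ≤ (1 - ε / 4) * (1 + ε) := by nlinarith
      calc (1 + ε / 2) * (n * Real.log 2) ≤ ((1 - ε / 4) * (1 + ε)) * (n * Real.log 2) :=
            mul_le_mul_of_nonneg_right h10 h9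
        _ = _ := by ring
    have h11 : K < ε / 2 * (n * Real.log 2) := by
      rw [div_lt_iff₀ (by positivity)] at hnK
      linarith
    linarith

/-- **First moment bound for the Waiter-Client game.** -/
theorem waiterWinsWC_of_first_moment (k : ℕ) (hk : 2 ≤ k) (ε : ℝ) (hε : 0 < ε) :
    ∃ n0 : ℕ, ∀ n ≥ n0, ∀ q : ℕ,
      (1 + ε) * (n * Real.log 2 * (q + 1)) ≤ 2 ^ k * n.choose k * Lk k →
      WaiterWinsWC q (board k n) ∅ := by
  have hk1 : 1 ≤ k := by omega
  set ε' : ℝ := min ε 1 with hε'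
  have hε'0 : 0 < ε' := lt_min hε one_pos
  have hε'1 : ε' ≤ 1 := min_le_right _ _
  have hε'ε : ε' ≤ ε := min_le_left _ _
  obtain ⟨n0, m0, hcore⟩ := waiterWinsWC_core k hk1 ε' hε'0 hε'1
  have hLpos : 0 < Lk k := Lk_pos hk1
  have hlog2 : 0 < Real.log 2 := Real.log_pos (by norm_num)
  set T : ℝ := 2 * Real.log 2 * (m0 + 1) * k.factorial / Lk k with hT
  refine ⟨n0 + 2 * k + ⌈T⌉₊ + 1, ?_⟩
  intro n hn q hcond
  have hcond' : (1 + ε') * (n * Real.log 2 * (q + 1)) ≤ 2 ^ k * n.choose k * Lk k := by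
    refine le_trans ?_ hcond
    have : 0 ≤ (n : ℝ) * Real.log 2 * (q + 1) := by positivity
    nlinarith
  rcases Nat.lt_or_ge (q + 1) m0 with hlt | hge
  · -- small bias: monotonicity
    refine WaiterWinsWC.mono_bias (q' := m0) (by omega) ?_
    refine hcore n (by omega) m0 (by omega) ?_
    have h1 := choose_ge_sq (k := k) (n := n) hk (by omega)
    have hnT : T ≤ n := by
      calc T ≤ (⌈T⌉₊ : ℝ) := Nat.le_ceil _
        _ ≤ n := by
          have : ⌈T⌉₊ ≤ n := by omega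
          exact_mod_cast this
    have hfact : (0 : ℝ) < k.factorial := by exact_mod_cast Nat.factorial_pos k
    have hn0 : (0 : ℝ) ≤ n := by positivity
    have h4 : (4 : ℝ) ≤ 2 ^ k := by
      calc (4 : ℝ) = 2 ^ 2 := by norm_num
        _ ≤ 2 ^ k := pow_le_pow_right₀ (by norm_num) hk
    have h2 : 2 * Real.log 2 * (m0 + 1) * k.factorial ≤ n * Lk k := by
      rw [hT, div_le_iff₀ hLpos] at hnT
      exact hnT
    have h5 : (n : ℝ) ^ 2 / k.factorial * Lk k ≤ 2 ^ k * n.choose k * Lk k := by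
      apply mul_le_mul_of_nonneg_right _ hLpos.le
      calc (n : ℝ) ^ 2 / (k.factorial : ℝ) = 4 * ((n : ℝ) ^ 2 / (4 * (k.factorial : ℝ))) := by
            field_simp
        _ ≤ 2 ^ k * (n.choose k : ℝ) := by
            apply mul_le_mul h4 h1 (by positivity) (by positivity)
    refine le_trans ?_ h5
    have h6 : (1 + ε') * ((n : ℝ) * Real.log 2 * ((m0 : ℝ) + 1)) ≤
        2 * ((n : ℝ) * Real.log 2 * ((m0 : ℝ) + 1)) := by
      apply mul_le_mul_of_nonneg_right (by linarith) (by positivity)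
    refine le_trans h6 ?_
    have h7 : (n : ℝ) * (2 * Real.log 2 * (m0 + 1) * k.factorial) ≤ n * (n * Lk k) :=
      mul_le_mul_of_nonneg_left h2 hn0
    have h8 : (n : ℝ) ^ 2 / k.factorial * Lk k = n * (n * Lk k) / k.factorial := by
      field_simp
    rw [h8, le_div_iff₀ hfact]
    linarith
  · exact hcore n (by omega) q hge hcond'

end Pool.Agent.W_MP_fefad7_co
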