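import Mathlib

set_option autoImplicit false

namespace Pool.Agent.W_MP_fefad7_co

open Finset

variable {α ι : Type*} [DecidableEq α]

/-- The density of the set `A` in `P`. -/
noncomputable def dens (P A : Finset α) : ℝ := ((P ∩ A).card : ℝ) / P.card

/-- Indicator. -/
noncomputable def ind (c : α) (A : Finset α) : ℝ := if c ∈ A then 1 else 0

lemma dens_nonneg (P A : Finset α) : 0 ≤ dens P A := by
  unfold dens; positivity

lemma dens_le_one (P A : Finset α) : dens P A ≤ 1 := by
  unfold dens
  rcases Nat.eq_zero_or_pos P.card with h | h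
  · simp [h]
  · rw [div_le_one (by exact_mod_cast h)]
    exact_mod_cast Finset.card_le_card Finset.inter_subset_left

lemma ind_nonneg (c : α) (A : Finset α) : 0 ≤ ind c A := by
  unfold ind; split_ifs <;> norm_num

lemma ind_le_one (c : α) (A : Finset α) : ind c A ≤ 1 := by
  unfold ind; split_ifs <;> norm_num

lemma dens_erase {P A : Finset α} {c : α} (hc : c ∈ P) (h2 : 2 ≤ P.card) :
    dens (P.erase c) A = dens P A + (dens P A - ind c A) / ((P.card : ℝ) - 1) := by
  have hp : (2 : ℝ) ≤ P.card := by exact_mod_cast h2
  have h0 : (P.card : ℝ) ≠ 0 := by linarith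
  have h1 : (P.card : ℝ) - 1 ≠ 0 := by linarith
  have hcard : (((P.erase c).card : ℕ) : ℝ) = (P.card : ℝ) - 1 := by
    rw [Finset.card_erase_of_mem hc, Nat.cast_sub (by omega)]
    simp
  have hint : (((P.erase c ∩ A).card : ℕ) : ℝ) = ((P ∩ A).card : ℝ) - ind c A := by
    rw [Finset.erase_inter]
    unfold ind
    by_cases h : c ∈ A
    · have hm : c ∈ P ∩ A := Finset.mem_inter.mpr ⟨hc, h⟩
      rw [Finset.card_erase_of_mem hm, Nat.cast_sub (Finset.card_pos.mpr ⟨c, hm⟩)]
      simp [h]
    · have hm : c ∉ P ∩ A := fun hh => h (Finset.mem_inter.mp hh).2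
      rw [Finset.erase_eq_of_notMem hm]
      simp [h]
  unfold dens
  rw [hcard, hint]
  field_simp
  ring

/-- The variational lemma: inside every nonempty finite set `U` there is a subset `P` containing a
positive proportion of `U` all of whose elements have a nearly average tilted weight. -/
lemma exists_variational (U : Finset α) (hU : U.Nonempty) (I : Finset ι) (A : ι → Finset α)
    (w : ι → ℝ) (hw : ∀ i ∈ I, 0 ≤ w i) (hW : 0 < ∑ i ∈ I, w i)
    (lam th ta : ℝ) (hlam : 0 < lam) (hth : 0 < th) (hth1 : th ≤ 1) (hta : 0 < ta) :
    ∃ P ⊆ U, P.Nonempty ∧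
      (ta / (Real.exp lam - 1 + ta)) ^ (1 / th) * U.card ≤ P.card ∧
      ∀ c ∈ P, ∑ i ∈ I, w i * Real.exp (lam * dens P (A i)) * (1 - ind c (A i)) ≤
        ∑ i ∈ I, w i * Real.exp (lam * dens P (A i)) * (1 - dens P (A i)) +
          th / lam * (∑ i ∈ I, w i * (Real.exp (lam * dens P (A i)) - 1)
            + ta * ∑ i ∈ I, w i) := by
  classical
  set W : ℝ := ∑ i ∈ I, w i with hWdef
  set Y : Finset α → ℝ := fun P => ∑ i ∈ I, w i * (Real.exp (lam * dens P (A i)) - 1) + ta * W
    with hY
  have hexp1 : ∀ P : Finset α, ∀ i, 1 ≤ Real.exp (lam * dens P (A i)) := by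
    intro P i
    rw [← Real.exp_zero]
    exact Real.exp_le_exp.mpr (mul_nonneg hlam.le (dens_nonneg _ _))
  have hYge : ∀ P, ta * W ≤ Y P := by
    intro P
    have : 0 ≤ ∑ i ∈ I, w i * (Real.exp (lam * dens P (A i)) - 1) :=
      Finset.sum_nonneg fun i hi => mul_nonneg (hw i hi) (by linarith [hexp1 P i])
    simp only [hY]
    linarith
  have hYpos : ∀ P, 0 < Y P := fun P => lt_of_lt_of_le (mul_pos hta hW) (hYge P)
  have hYle : ∀ P, Y P ≤ (Real.exp lam - 1 + ta) * W := by
    intro P
    have : ∑ i ∈ I, w i * (Real.exp (lam * dens P (A i)) - 1) ≤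
        ∑ i ∈ I, w i * (Real.exp lam - 1) := by
      refine Finset.sum_le_sum fun i hi => mul_le_mul_of_nonneg_left ?_ (hw i hi)
      have : Real.exp (lam * dens P (A i)) ≤ Real.exp lam := by
        apply Real.exp_le_exp.mpr
        calc lam * dens P (A i) ≤ lam * 1 :=
              mul_le_mul_of_nonneg_left (dens_le_one _ _) hlam.le
          _ = lam := mul_one _
      linarith
    rw [← Finset.sum_mul] at this
    simp only [hY]
    have e1 : (Real.exp lam - 1 + ta) * W = W * (Real.exp lam - 1) + ta * W := by ring
    rw [e1]
    linarith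
  -- maximiser
  obtain ⟨P, hPmem, hPmax⟩ := Finset.exists_max_image
    (U.powerset.filter fun P => P.Nonempty) (fun P => Y P * (P.card : ℝ) ^ th)
    ⟨U, by simp [hU]⟩
  rw [Finset.mem_filter, Finset.mem_powerset] at hPmem
  obtain ⟨hPU, hPne⟩ := hPmem
  refine ⟨P, hPU, hPne, ?_, ?_⟩
  · -- size
    have hmax := hPmax U (by simp [hU])
    have hUc : (0 : ℝ) ≤ U.card := by positivity
    have hPc : (0 : ℝ) ≤ P.card := by positivity
    have hD : 0 < Real.exp lam - 1 + ta := by
      have : 1 < Real.exp lam := by
        rw [← Real.exp_zero]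
        exact Real.exp_lt_exp.mpr hlam
      linarith
    have h1 : ta * W * (U.card : ℝ) ^ th ≤ (Real.exp lam - 1 + ta) * W * (P.card : ℝ) ^ th := by
      calc ta * W * (U.card : ℝ) ^ th ≤ Y U * (U.card : ℝ) ^ th :=
            mul_le_mul_of_nonneg_right (hYge U) (Real.rpow_nonneg hUc _)
        _ ≤ Y P * (P.card : ℝ) ^ th := hmax
        _ ≤ (Real.exp lam - 1 + ta) * W * (P.card : ℝ) ^ th :=
            mul_le_mul_of_nonneg_right (hYle P) (Real.rpow_nonneg hPc _)
    have h2 : ta / (Real.exp lam - 1 + ta) * (U.card : ℝ) ^ th ≤ (P.card : ℝ) ^ th := by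
      rw [div_mul_eq_mul_div, div_le_iff₀ hD]
      have h3 : W * (ta * (U.card : ℝ) ^ th) ≤ W * ((P.card : ℝ) ^ th * (Real.exp lam - 1 + ta)) := by
        linarith
      exact le_of_mul_le_mul_left h3 hW
    have hk0 : 0 ≤ ta / (Real.exp lam - 1 + ta) := by positivity
    have h4 : ((ta / (Real.exp lam - 1 + ta)) ^ (1 / th) * U.card) ^ th =
        ta / (Real.exp lam - 1 + ta) * (U.card : ℝ) ^ th := by
      rw [Real.mul_rpow (Real.rpow_nonneg hk0 _) hUc, ← Real.rpow_mul hk0,
        one_div_mul_cancel hth.ne', Real.rpow_one]
    rw [← h4] at h2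
    exact (Real.rpow_le_rpow_iff (by positivity) hPc hth).mp h2
  · intro c hc
    have hsplit : ∑ i ∈ I, w i * Real.exp (lam * dens P (A i)) * (1 - ind c (A i)) =
        ∑ i ∈ I, w i * Real.exp (lam * dens P (A i)) * (1 - dens P (A i)) +
        ∑ i ∈ I, w i * Real.exp (lam * dens P (A i)) * (dens P (A i) - ind c (A i)) := by
      rw [← Finset.sum_add_distrib]
      refine Finset.sum_congr rfl fun i _ => ?_
      ring
    rw [hsplit]
    have hgoal : ∑ i ∈ I, w i * Real.exp (lam * dens P (A i)) * (dens P (A i) - ind c (A i)) ≤
        th / lam * Y P := by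
      rcases Nat.lt_or_ge P.card 2 with hlt | h2
      · have hP1 : P.card = 1 := by
          have := Finset.card_pos.mpr hPne
          omega
        obtain ⟨a, ha⟩ := Finset.card_eq_one.mp hP1
        have hca : c = a := by
          rw [ha] at hc
          exact Finset.mem_singleton.mp hc
        have hz : ∀ i ∈ I, w i * Real.exp (lam * dens P (A i)) *
            (dens P (A i) - ind c (A i)) = 0 := by
          intro i _
          have : dens P (A i) = ind c (A i) := by
            unfold dens ind
            rw [ha, hca]
            by_cases h : a ∈ A i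
            · rw [Finset.singleton_inter_of_mem h]
              simp [h]
            · rw [Finset.singleton_inter_of_notMem h]
              simp [h]
          rw [this]
          ring
        rw [Finset.sum_eq_zero hz]
        exact mul_nonneg (div_nonneg hth.le hlam.le) (hYpos P).le
      · have hp : (2 : ℝ) ≤ P.card := by exact_mod_cast h2
        have hp1 : (0 : ℝ) < (P.card : ℝ) - 1 := by linarith
        have hcard : (((P.erase c).card : ℕ) : ℝ) = (P.card : ℝ) - 1 := by
          rw [Finset.card_erase_of_mem hc, Nat.cast_sub (by omega)]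
          simp
        have hne' : (P.erase c).Nonempty := by
          rw [← Finset.card_pos, Finset.card_erase_of_mem hc]
          omega
        have hmax := hPmax (P.erase c) (by
          rw [Finset.mem_filter, Finset.mem_powerset]
          exact ⟨(Finset.erase_subset _ _).trans hPU, hne'⟩)
        rw [hcard] at hmax
        -- (p/(p-1))^th ≤ 1 + th/(p-1)
        have hratio : (P.card : ℝ) ^ th ≤ ((P.card : ℝ) - 1) ^ th * (1 + th / ((P.card : ℝ) - 1)) := by
          have e1 : (P.card : ℝ) = ((P.card : ℝ) - 1) * (1 + 1 / ((P.card : ℝ) - 1)) := by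
            field_simp
            ring
          calc (P.card : ℝ) ^ th
              = (((P.card : ℝ) - 1) * (1 + 1 / ((P.card : ℝ) - 1))) ^ th := by rw [← e1]
            _ = ((P.card : ℝ) - 1) ^ th * (1 + 1 / ((P.card : ℝ) - 1)) ^ th :=
                Real.mul_rpow hp1.le (by positivity)
            _ ≤ ((P.card : ℝ) - 1) ^ th * (1 + th / ((P.card : ℝ) - 1)) := by
                refine mul_le_mul_of_nonneg_left ?_ (Real.rpow_nonneg hp1.le _)
                have := rpow_one_add_le_one_add_mul_self
                  (s := 1 / ((P.card : ℝ) - 1)) (by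
                    have : 0 ≤ 1 / ((P.card : ℝ) - 1) := by positivity
                    linarith) hth.le hth1
                calc (1 + 1 / ((P.card : ℝ) - 1)) ^ th
                    ≤ 1 + th * (1 / ((P.card : ℝ) - 1)) := this
                  _ = 1 + th / ((P.card : ℝ) - 1) := by ring
        have hYY : Y (P.erase c) ≤ Y P * (1 + th / ((P.card : ℝ) - 1)) := by
          have h5 : Y (P.erase c) * ((P.card : ℝ) - 1) ^ th ≤
              Y P * (1 + th / ((P.card : ℝ) - 1)) * ((P.card : ℝ) - 1) ^ th := by
            calc Y (P.erase c) * ((P.card : ℝ) - 1) ^ th ≤ Y P * (P.card : ℝ) ^ th := hmax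
              _ ≤ Y P * (((P.card : ℝ) - 1) ^ th * (1 + th / ((P.card : ℝ) - 1))) :=
                  mul_le_mul_of_nonneg_left hratio (hYpos P).le
              _ = _ := by ring
          exact le_of_mul_le_mul_right h5 (Real.rpow_pos_of_pos hp1 _)
        -- lower bound for Y (P.erase c)
        have hlow : Y P + lam / ((P.card : ℝ) - 1) *
            ∑ i ∈ I, w i * Real.exp (lam * dens P (A i)) * (dens P (A i) - ind c (A i))
            ≤ Y (P.erase c) := by
          have hms := Finset.mul_sum I (fun i => w i * Real.exp (lam * dens P (A i)) *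
            (dens P (A i) - ind c (A i))) (lam / ((P.card : ℝ) - 1))
          rw [hms]
          simp only [hY]
          have : ∑ i ∈ I, w i * (Real.exp (lam * dens P (A i)) - 1) +
              ∑ i ∈ I, lam / ((P.card : ℝ) - 1) * (w i * Real.exp (lam * dens P (A i)) *
                (dens P (A i) - ind c (A i)))
              ≤ ∑ i ∈ I, w i * (Real.exp (lam * dens (P.erase c) (A i)) - 1) := by
            rw [← Finset.sum_add_distrib]
            refine Finset.sum_le_sum fun i hi => ?_
            have e2 : Real.exp (lam * dens (P.erase c) (A i)) =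
                Real.exp (lam * dens P (A i)) *
                  Real.exp (lam * (dens P (A i) - ind c (A i)) / ((P.card : ℝ) - 1)) := by
              rw [← Real.exp_add, dens_erase hc h2]
              congr 1
              ring
            have e3 : 1 + lam * (dens P (A i) - ind c (A i)) / ((P.card : ℝ) - 1) ≤
                Real.exp (lam * (dens P (A i) - ind c (A i)) / ((P.card : ℝ) - 1)) := by
              have := Real.add_one_le_exp
                (lam * (dens P (A i) - ind c (A i)) / ((P.card : ℝ) - 1))
              linarith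
            have e4 : Real.exp (lam * dens P (A i)) *
                (1 + lam * (dens P (A i) - ind c (A i)) / ((P.card : ℝ) - 1)) ≤
                Real.exp (lam * dens (P.erase c) (A i)) := by
              rw [e2]
              exact mul_le_mul_of_nonneg_left e3 (Real.exp_pos _).le
            have e5 := mul_le_mul_of_nonneg_left e4 (hw i hi)
            have e6 : w i * (Real.exp (lam * dens P (A i)) *
                (1 + lam * (dens P (A i) - ind c (A i)) / ((P.card : ℝ) - 1))) =
                w i * (Real.exp (lam * dens P (A i)) - 1) +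
                lam / ((P.card : ℝ) - 1) * (w i * Real.exp (lam * dens P (A i)) *
                (dens P (A i) - ind c (A i))) + w i := by
              ring
            rw [e6] at e5
            have e7 : w i * (Real.exp (lam * dens (P.erase c) (A i)) - 1) =
                w i * Real.exp (lam * dens (P.erase c) (A i)) - w i := by ring
            rw [e7]
            linarith
          linarith
        have h8 : lam / ((P.card : ℝ) - 1) *
            ∑ i ∈ I, w i * Real.exp (lam * dens P (A i)) * (dens P (A i) - ind c (A i))
            ≤ Y P * (th / ((P.card : ℝ) - 1)) := by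
          have : Y P * (1 + th / ((P.card : ℝ) - 1)) = Y P + Y P * (th / ((P.card : ℝ) - 1)) := by
            ring
          linarith
        have h9 : lam * ∑ i ∈ I, w i * Real.exp (lam * dens P (A i)) *
            (dens P (A i) - ind c (A i)) ≤ Y P * th := by
          have h10 := mul_le_mul_of_nonneg_left h8 hp1.le
          have e8 : ((P.card : ℝ) - 1) * (lam / ((P.card : ℝ) - 1) *
              ∑ i ∈ I, w i * Real.exp (lam * dens P (A i)) * (dens P (A i) - ind c (A i))) =
              lam * ∑ i ∈ I, w i * Real.exp (lam * dens P (A i)) *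
                (dens P (A i) - ind c (A i)) := by
            field_simp
          have e9 : ((P.card : ℝ) - 1) * (Y P * (th / ((P.card : ℝ) - 1))) = Y P * th := by
            field_simp
          rw [e8, e9] at h10
          exact h10
        rw [div_mul_eq_mul_div, le_div_iff₀ hlam]
        linarith
    linarith

end Pool.Agent.W_MP_fefad7_co
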