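import Pool.Agent.W_MP_fefad7_co.Sampling
import Pool.Agent.W_MP_fefad7_co.Variational

set_option autoImplicit false

namespace Pool.Agent.W_MP_fefad7_co

open Finset

variable {α ι : Type*} [DecidableEq α]

lemma abs_exp_sub_exp_le {a b lam : ℝ} (ha : 0 ≤ a) (ha1 : a ≤ 1) (hb : 0 ≤ b) (hb1 : b ≤ 1)
    (hlam : 0 < lam) :
    |Real.exp (lam * a) - Real.exp (lam * b)| ≤ lam * Real.exp lam * |a - b| := by
  have key : ∀ x y : ℝ, 0 ≤ x → x ≤ 1 → y ≤ x → 
      Real.exp (lam * x) - Real.exp (lam * y) ≤ lam * Real.exp lam * (x - y) := by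
    intro x y hx hx1 hyx
    have h1 : Real.exp (lam * x) - Real.exp (lam * y) =
        Real.exp (lam * x) * (1 - Real.exp (lam * (y - x))) := by
      rw [mul_sub, mul_one, ← Real.exp_add]
      congr 2
      ring
    have h2 : 1 - Real.exp (lam * (y - x)) ≤ lam * (x - y) := by
      have := Real.add_one_le_exp (lam * (y - x))
      linarith
    have h3 : Real.exp (lam * x) ≤ Real.exp lam := by
      apply Real.exp_le_exp.mpr
      nlinarith
    have h4 : 0 ≤ lam * (x - y) := mul_nonneg hlam.le (by linarith)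
    rw [h1]
    calc Real.exp (lam * x) * (1 - Real.exp (lam * (y - x)))
        ≤ Real.exp (lam * x) * (lam * (x - y)) :=
          mul_le_mul_of_nonneg_left h2 (Real.exp_pos _).le
      _ ≤ Real.exp lam * (lam * (x - y)) := mul_le_mul_of_nonneg_right h3 h4
      _ = lam * Real.exp lam * (x - y) := by ring
  rcases le_total b a with h | h
  · rw [abs_of_nonneg (by linarith : 0 ≤ a - b), abs_of_nonneg]
    · exact key a b ha ha1 h
    · have : Real.exp (lam * b) ≤ Real.exp (lam * a) :=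
        Real.exp_le_exp.mpr (mul_le_mul_of_nonneg_left h hlam.le)
      linarith
  · rw [abs_sub_comm, abs_sub_comm a b, abs_of_nonneg (by linarith : 0 ≤ b - a), abs_of_nonneg]
    · exact key b a hb hb1 h
    · have : Real.exp (lam * a) ≤ Real.exp (lam * b) :=
        Real.exp_le_exp.mpr (mul_le_mul_of_nonneg_left h hlam.le)
      linarith

/-- One offer of Waiter: a set `O` of exactly `m` elements of `U` such that every answer of Client
is nearly as good for Waiter as the average one. -/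
lemma exists_offer (U : Finset α) (I : Finset ι) (A : ι → Finset α)
    (w : ι → ℝ) (hw : ∀ i ∈ I, 0 ≤ w i) (hW : 0 < ∑ i ∈ I, w i)
    (lam th M : ℝ) (hlam : 0 < lam) (hth : 0 < th) (hth1 : th ≤ 1)
    (hM : ∀ f : ℝ, 0 ≤ f → f ≤ 1 → Real.exp (lam * f) * (1 - f) ≤ M)
    (m : ℕ) (hm : 0 < m) (hmU : (m : ℝ) ≤ Real.exp (-(lam / th)) * U.card) :
    ∃ O ⊆ U, O.card = m ∧ ∀ c ∈ O,
      ∑ i ∈ I, w i * Real.exp (lam * (((O ∩ A i).card : ℝ) / m)) * (1 - ind c (A i)) ≤
        (M + (th / lam * Real.exp lam + lam * Real.exp lam / Real.sqrt m)) * ∑ i ∈ I, w i := by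
  set W : ℝ := ∑ i ∈ I, w i with hWdef
  have hmR : (0 : ℝ) < m := by exact_mod_cast hm
  have hUne : U.Nonempty := by
    rw [← Finset.card_pos]
    by_contra hcon
    have h0 : U.card = 0 := by omega
    rw [h0] at hmU
    simp at hmU
    linarith
  obtain ⟨P, hPU, hPne, hPcard, hP⟩ := exists_variational U hUne I A w hw hW lam th 1 hlam hth
    hth1 one_pos
  have hk : (1 / (Real.exp lam - 1 + 1)) ^ (1 / th) = Real.exp (-(lam / th)) := by
    rw [sub_add_cancel, one_div, ← Real.exp_neg, ← Real.exp_mul]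
    congr 1
    ring
  rw [hk] at hPcard
  have hmP : m ≤ P.card := by
    have : (m : ℝ) ≤ P.card := le_trans hmU hPcard
    exact_mod_cast this
  obtain ⟨O, hOP, hOcard, hOsum⟩ := exists_sample P I A w hw m hmP
  refine ⟨O, hOP.trans hPU, hOcard, fun c hc => ?_⟩
  have hcP := hOP hc
  have h1 := hP c hcP
  -- bound for the set P
  have h2 : ∑ i ∈ I, w i * Real.exp (lam * dens P (A i)) * (1 - dens P (A i)) ≤ M * W := by
    rw [hWdef, Finset.mul_sum]
    refine Finset.sum_le_sum fun i hi => ?_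
    have := hM (dens P (A i)) (dens_nonneg _ _) (dens_le_one _ _)
    calc w i * Real.exp (lam * dens P (A i)) * (1 - dens P (A i))
        = w i * (Real.exp (lam * dens P (A i)) * (1 - dens P (A i))) := by ring
      _ ≤ w i * M := mul_le_mul_of_nonneg_left this (hw i hi)
      _ = M * w i := mul_comm _ _
  have h3 : ∑ i ∈ I, w i * (Real.exp (lam * dens P (A i)) - 1) + 1 * W ≤ Real.exp lam * W := by
    have : ∑ i ∈ I, w i * (Real.exp (lam * dens P (A i)) - 1) ≤
        ∑ i ∈ I, w i * (Real.exp lam - 1) := by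
      refine Finset.sum_le_sum fun i hi => mul_le_mul_of_nonneg_left ?_ (hw i hi)
      have : Real.exp (lam * dens P (A i)) ≤ Real.exp lam := by
        apply Real.exp_le_exp.mpr
        calc lam * dens P (A i) ≤ lam * 1 :=
              mul_le_mul_of_nonneg_left (dens_le_one _ _) hlam.le
          _ = lam := mul_one _
      linarith
    rw [← Finset.sum_mul] at this
    have e1 : Real.exp lam * W = W * (Real.exp lam - 1) + 1 * W := by ring
    rw [e1]
    linarith
  have h4 : ∑ i ∈ I, w i * Real.exp (lam * dens P (A i)) * (1 - ind c (A i)) ≤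
      (M + th / lam * Real.exp lam) * W := by
    have h5 : th / lam * (∑ i ∈ I, w i * (Real.exp (lam * dens P (A i)) - 1) + 1 * W) ≤
        th / lam * (Real.exp lam * W) :=
      mul_le_mul_of_nonneg_left h3 (div_nonneg hth.le hlam.le)
    calc ∑ i ∈ I, w i * Real.exp (lam * dens P (A i)) * (1 - ind c (A i))
        ≤ ∑ i ∈ I, w i * Real.exp (lam * dens P (A i)) * (1 - dens P (A i)) +
          th / lam * (∑ i ∈ I, w i * (Real.exp (lam * dens P (A i)) - 1) + 1 * W) := h1
      _ ≤ M * W + th / lam * (Real.exp lam * W) := add_le_add h2 h5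
      _ = (M + th / lam * Real.exp lam) * W := by ring
  -- sampling error
  set d : ι → ℝ := fun i => ((O ∩ A i).card : ℝ) / m - dens P (A i) with hd
  have hd2 : ∑ i ∈ I, w i * d i ^ 2 ≤ W / m := by
    have e1 : ∀ i ∈ I, w i * d i ^ 2 = (w i * (((O ∩ A i).card : ℝ) -
        m * (((P ∩ A i).card : ℝ) / P.card)) ^ 2) / (m : ℝ) ^ 2 := by
      intro i _
      simp only [hd, dens]
      field_simp
    rw [Finset.sum_congr rfl e1, ← Finset.sum_div, div_le_div_iff₀ (by positivity) hmR]
    calc (∑ i ∈ I, w i * (((O ∩ A i).card : ℝ) - m * (((P ∩ A i).card : ℝ) / P.card)) ^ 2) * m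
        ≤ (m * W) * m := mul_le_mul_of_nonneg_right hOsum hmR.le
      _ = W * (m : ℝ) ^ 2 := by ring
  have hd1 : ∑ i ∈ I, w i * |d i| ≤ W / Real.sqrt m := by
    have hcs : (∑ i ∈ I, w i * |d i|) ^ 2 ≤ (∑ i ∈ I, w i) * ∑ i ∈ I, w i * d i ^ 2 := by
      have := Finset.sum_mul_sq_le_sq_mul_sq I (fun i => Real.sqrt (w i))
        (fun i => Real.sqrt (w i) * |d i|)
      have e1 : ∑ i ∈ I, Real.sqrt (w i) * (Real.sqrt (w i) * |d i|) = ∑ i ∈ I, w i * |d i| := by
        refine Finset.sum_congr rfl fun i hi => ?_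
        rw [← mul_assoc, Real.mul_self_sqrt (hw i hi)]
      have e2 : ∑ i ∈ I, Real.sqrt (w i) ^ 2 = ∑ i ∈ I, w i :=
        Finset.sum_congr rfl fun i hi => Real.sq_sqrt (hw i hi)
      have e3 : ∑ i ∈ I, (Real.sqrt (w i) * |d i|) ^ 2 = ∑ i ∈ I, w i * d i ^ 2 := by
        refine Finset.sum_congr rfl fun i hi => ?_
        rw [mul_pow, Real.sq_sqrt (hw i hi), sq_abs]
      rw [e1, e2, e3] at this
      exact this
    have hnn : 0 ≤ ∑ i ∈ I, w i * |d i| :=
      Finset.sum_nonneg fun i hi => mul_nonneg (hw i hi) (abs_nonneg _)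
    have h6 : (∑ i ∈ I, w i * |d i|) ^ 2 ≤ (W / Real.sqrt m) ^ 2 := by
      calc (∑ i ∈ I, w i * |d i|) ^ 2 ≤ W * ∑ i ∈ I, w i * d i ^ 2 := hcs
        _ ≤ W * (W / m) := mul_le_mul_of_nonneg_left hd2 hW.le
        _ = (W / Real.sqrt m) ^ 2 := by
          rw [div_pow, Real.sq_sqrt hmR.le]
          ring
    exact (pow_le_pow_iff_left₀ hnn (by positivity) two_ne_zero).mp h6
  have h7 : ∑ i ∈ I, w i * Real.exp (lam * (((O ∩ A i).card : ℝ) / m)) * (1 - ind c (A i)) ≤
      ∑ i ∈ I, w i * Real.exp (lam * dens P (A i)) * (1 - ind c (A i)) +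
      ∑ i ∈ I, lam * Real.exp lam * (w i * |d i|) := by
    rw [← Finset.sum_add_distrib]
    refine Finset.sum_le_sum fun i hi => ?_
    have hO0 : (0 : ℝ) ≤ ((O ∩ A i).card : ℝ) / m := by positivity
    have hO1 : ((O ∩ A i).card : ℝ) / m ≤ 1 := by
      rw [div_le_one hmR, ← hOcard]
      exact_mod_cast Finset.card_le_card Finset.inter_subset_left
    have h8 := abs_exp_sub_exp_le hO0 hO1 (dens_nonneg P (A i)) (dens_le_one P (A i)) hlam
    have h9 : Real.exp (lam * (((O ∩ A i).card : ℝ) / m)) - Real.exp (lam * dens P (A i)) ≤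
        lam * Real.exp lam * |d i| := le_trans (le_abs_self _) h8
    have h10 : 0 ≤ lam * Real.exp lam * |d i| := by positivity
    have h11 : (Real.exp (lam * (((O ∩ A i).card : ℝ) / m)) - Real.exp (lam * dens P (A i))) *
        (1 - ind c (A i)) ≤ lam * Real.exp lam * |d i| := by
      have hi0 := ind_nonneg c (A i)
      have hi1 := ind_le_one c (A i)
      nlinarith
    have h12 := mul_le_mul_of_nonneg_left h11 (hw i hi)
    linarith
  rw [← Finset.mul_sum] at h7
  have h13 : lam * Real.exp lam * ∑ i ∈ I, w i * |d i| ≤ lam * Real.exp lam * (W / Real.sqrt m) :=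
    mul_le_mul_of_nonneg_left hd1 (by positivity)
  calc ∑ i ∈ I, w i * Real.exp (lam * (((O ∩ A i).card : ℝ) / m)) * (1 - ind c (A i))
      ≤ ∑ i ∈ I, w i * Real.exp (lam * dens P (A i)) * (1 - ind c (A i)) +
        lam * Real.exp lam * ∑ i ∈ I, w i * |d i| := h7
    _ ≤ (M + th / lam * Real.exp lam) * W + lam * Real.exp lam * (W / Real.sqrt m) :=
        add_le_add h4 h13
    _ = (M + (th / lam * Real.exp lam + lam * Real.exp lam / Real.sqrt m)) * W := by ring

end Pool.Agent.W_MP_fefad7_co
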