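import Pool.Agent.W_MP_fefad7_co.Basic
import Pool.Agent.W_MP_fefad7_co.Step

set_option autoImplicit false

namespace Pool.Agent.W_MP_fefad7_co

open Finset

variable {n : ℕ}

/-- The clauses violated by the assignment `s`. -/
def viol (s : Fin n → Bool) : Finset (Clause n) :=
  Finset.univ.filter fun c => ∀ l ∈ c, s l.1 ≠ l.2

lemma mem_viol {s : Fin n → Bool} {c : Clause n} : c ∈ viol s ↔ ∀ l ∈ c, s l.1 ≠ l.2 := by
  simp [viol]

lemma notMem_viol {s : Fin n → Bool} {c : Clause n} : c ∉ viol s ↔ ∃ l ∈ c, s l.1 = l.2 := by
  rw [mem_viol]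
  push Not
  rfl

/-- The assignments satisfying all the clauses in `X`. -/
def sols (X : Finset (Clause n)) : Finset (Fin n → Bool) :=
  Finset.univ.filter fun s => ∀ c ∈ X, c ∉ viol s

lemma mem_sols {X : Finset (Clause n)} {s : Fin n → Bool} :
    s ∈ sols X ↔ ∀ c ∈ X, c ∉ viol s := by
  simp [sols]

lemma satisfiable_iff {X : Finset (Clause n)} : Satisfiable X ↔ (sols X).Nonempty := by
  constructor
  · rintro ⟨s, hs⟩
    exact ⟨s, mem_sols.mpr fun c hc => notMem_viol.mpr (hs c hc)⟩
  · rintro ⟨s, hs⟩
    exact ⟨s, fun c hc => notMem_viol.mp (mem_sols.mp hs c hc)⟩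

lemma sols_insert (c : Clause n) (X : Finset (Clause n)) :
    sols (insert c X) = (sols X).filter fun s => c ∉ viol s := by
  ext s
  rw [Finset.mem_filter, mem_sols, mem_sols]
  simp only [Finset.mem_insert, forall_eq_or_imp]
  tauto

/-- The potential of a position. -/
noncomputable def pot (a b : ℝ) (U X : Finset (Clause n)) : ℝ :=
  ∑ s ∈ sols X, Real.exp (-a * (U ∩ viol s).card + b * U.card)

lemma pot_nonneg (a b : ℝ) (U X : Finset (Clause n)) : 0 ≤ pot a b U X :=
  Finset.sum_nonneg fun _ _ => (Real.exp_pos _).le

/-- The potential after the offer `O` and the answer `c`. -/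
lemma pot_step (a b : ℝ) (U X O : Finset (Clause n)) (hO : O ⊆ U) (c : Clause n) :
    pot a b (U \ O) (insert c X) =
      Real.exp (b * U.card) * Real.exp (-(b * O.card)) *
        ∑ s ∈ sols X, Real.exp (-a * (U ∩ viol s).card) * Real.exp (a * (O ∩ viol s).card) *
          (1 - ind c (viol s)) := by
  unfold pot
  rw [sols_insert, Finset.sum_filter, Finset.mul_sum]
  refine Finset.sum_congr rfl fun s _ => ?_
  have h1 : (((U \ O) ∩ viol s).card : ℝ) = (U ∩ viol s).card - (O ∩ viol s).card := by
    have h2 : (U \ O) ∩ viol s = (U ∩ viol s) \ (O ∩ viol s) := by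
      ext x
      simp only [Finset.mem_inter, Finset.mem_sdiff]
      tauto
    rw [h2, Finset.card_sdiff_of_subset (Finset.inter_subset_inter_right hO), Nat.cast_sub]
    exact Finset.card_le_card (Finset.inter_subset_inter_right hO)
  have h3 : (((U \ O).card : ℕ) : ℝ) = (U.card : ℝ) - O.card := by
    rw [Finset.card_sdiff_of_subset hO, Nat.cast_sub (Finset.card_le_card hO)]
  by_cases hc : c ∈ viol s
  · simp [hc, ind]
  · rw [if_pos hc]
    have : ind c (viol s) = 0 := by simp [ind, hc]
    rw [this, h1, h3, sub_zero, mul_one, ← Real.exp_add, ← Real.exp_add, ← Real.exp_add]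
    congr 1
    ring

/-- If the potential of a position of the Waiter-Client game is small then Waiter wins. -/
lemma waiterWinsWC_of_pot (q : ℕ) (lam th M B : ℝ) (hlam : 0 < lam) (hth : 0 < th)
    (hth1 : th ≤ 1) (hB : 0 ≤ B)
    (hM : ∀ f : ℝ, 0 ≤ f → f ≤ 1 → Real.exp (lam * f) * (1 - f) ≤ M)
    (hMB : M + (th / lam * Real.exp lam + lam * Real.exp lam / Real.sqrt ((q + 1 : ℕ) : ℝ))
      ≤ Real.exp B) :
    ∀ (N : ℕ) (U X : Finset (Clause n)), U.card ≤ N →
      pot (lam / ((q + 1 : ℕ) : ℝ)) (B / ((q + 1 : ℕ) : ℝ)) U X *
        Real.exp (lam * Real.exp (lam / th)) < 1 → WaiterWinsWC q U X := by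
  intro N
  induction N with
  | zero =>
    intro U X hU hpot
    have hU0 : U = ∅ := Finset.card_eq_zero.mp (by omega)
    subst hU0
    refine waiterWinsWC_of_unsat q 0 _ _ (by simp) ?_
    rw [satisfiable_iff]
    intro hne
    have h1 : (1 : ℝ) ≤ pot (lam / ((q + 1 : ℕ) : ℝ)) (B / ((q + 1 : ℕ) : ℝ)) ∅ X := by
      unfold pot
      simp only [Finset.empty_inter, Finset.card_empty, Nat.cast_zero, mul_zero, add_zero,
        Real.exp_zero, Finset.sum_const, nsmul_eq_mul, mul_one]
      exact_mod_cast Finset.card_pos.mpr hne
    have h2 : (1 : ℝ) ≤ Real.exp (lam * Real.exp (lam / th)) := by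
      rw [← Real.exp_zero]
      exact Real.exp_le_exp.mpr (by positivity)
    nlinarith
  | succ N ih =>
    intro U X hU hpot
    set m : ℕ := q + 1 with hm
    have hmpos : 0 < m := Nat.succ_pos q
    have hmR : (0 : ℝ) < (m : ℝ) := by exact_mod_cast hmpos
    by_cases hsat : (sols X).Nonempty
    swap
    · exact waiterWinsWC_of_unsat q _ U X le_rfl fun h => hsat (satisfiable_iff.mp h)
    -- weights
    set w : (Fin n → Bool) → ℝ := fun s => Real.exp (-(lam / m) * (U ∩ viol s).card) with hwdef
    have hw : ∀ s ∈ sols X, 0 ≤ w s := fun s _ => (Real.exp_pos _).le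
    have hW : 0 < ∑ s ∈ sols X, w s := Finset.sum_pos (fun s _ => Real.exp_pos _) hsat
    have hpotU : pot (lam / m) (B / m) U X = Real.exp (B / m * U.card) * ∑ s ∈ sols X, w s := by
      unfold pot
      rw [Finset.mul_sum]
      refine Finset.sum_congr rfl fun s _ => ?_
      rw [← Real.exp_add]
      congr 1
      ring
    by_cases hlarge : (m : ℝ) ≤ Real.exp (-(lam / th)) * U.card
    · obtain ⟨O, hO, hOcard, hOc⟩ := exists_offer U (sols X) (fun s => viol s) w hw hW lam th M
        hlam hth hth1 hM m hmpos hlarge
      have hOne : O.Nonempty := Finset.card_pos.mp (by omega)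
      refine WaiterWinsWC.offer U X O hO hOcard fun c hc => ih _ _ ?_ ?_
      · have := sdiff_card_lt hO hOne
        omega
      · have hle : pot (lam / m) (B / m) (U \ O) (insert c X) ≤ pot (lam / m) (B / m) U X := by
          rw [pot_step _ _ _ _ _ hO, hpotU]
          have e1 : ∑ s ∈ sols X, Real.exp (-(lam / m) * (U ∩ viol s).card) *
              Real.exp (lam / m * (O ∩ viol s).card) * (1 - ind c (viol s)) =
              ∑ s ∈ sols X, w s * Real.exp (lam * (((O ∩ viol s).card : ℝ) / m)) *
                (1 - ind c (viol s)) := by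
            refine Finset.sum_congr rfl fun s _ => ?_
            rw [hwdef]
            congr 3
            ring
          rw [e1, hOcard]
          have h1 := hOc c hc
          have h2 : ∑ s ∈ sols X, w s * Real.exp (lam * (((O ∩ viol s).card : ℝ) / m)) *
              (1 - ind c (viol s)) ≤ Real.exp B * ∑ s ∈ sols X, w s :=
            le_trans h1 (mul_le_mul_of_nonneg_right hMB hW.le)
          have e2 : Real.exp (-(B / m * m)) = Real.exp (-B) := by
            congr 1
            field_simp
          rw [e2]
          calc Real.exp (B / m * U.card) * Real.exp (-B) *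
                ∑ s ∈ sols X, w s * Real.exp (lam * (((O ∩ viol s).card : ℝ) / m)) *
                (1 - ind c (viol s))
              ≤ Real.exp (B / m * U.card) * Real.exp (-B) *
                (Real.exp B * ∑ s ∈ sols X, w s) :=
                mul_le_mul_of_nonneg_left h2 (by positivity)
            _ = Real.exp (B / m * U.card) * (Real.exp (-B) * Real.exp B) *
                ∑ s ∈ sols X, w s := by ring
            _ = Real.exp (B / m * U.card) * ∑ s ∈ sols X, w s := by
                rw [← Real.exp_add]
                simp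
        calc pot (lam / m) (B / m) (U \ O) (insert c X) * Real.exp (lam * Real.exp (lam / th))
            ≤ pot (lam / m) (B / m) U X * Real.exp (lam * Real.exp (lam / th)) :=
              mul_le_mul_of_nonneg_right hle (Real.exp_pos _).le
          _ < 1 := hpot
    · exfalso
      push Not at hlarge
      obtain ⟨s, hs⟩ := hsat
      have h1 : Real.exp (-(lam * Real.exp (lam / th))) ≤ pot (lam / m) (B / m) U X := by
        have h2 : Real.exp (-(lam / m) * (U ∩ viol s).card + B / m * U.card) ≤
            pot (lam / m) (B / m) U X := by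
          unfold pot
          exact Finset.single_le_sum
            (f := fun s => Real.exp (-(lam / m) * (U ∩ viol s).card + B / m * U.card))
            (fun s _ => (Real.exp_pos _).le) hs
        refine le_trans ?_ h2
        apply Real.exp_le_exp.mpr
        have h3 : ((U ∩ viol s).card : ℝ) ≤ U.card := by
          exact_mod_cast Finset.card_le_card Finset.inter_subset_left
        have h4 : (U.card : ℝ) ≤ m * Real.exp (lam / th) := by
          have h5 : Real.exp (lam / th) * (Real.exp (-(lam / th)) * U.card) ≤
              Real.exp (lam / th) * m :=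
            mul_le_mul_of_nonneg_left hlarge.le (Real.exp_pos _).le
          rw [← mul_assoc, ← Real.exp_add] at h5
          simp only [add_neg_cancel, Real.exp_zero, one_mul] at h5
          linarith
        have h6 : lam / m * (U ∩ viol s).card ≤ lam * Real.exp (lam / th) := by
          calc lam / m * (U ∩ viol s).card ≤ lam / m * (m * Real.exp (lam / th)) :=
                mul_le_mul_of_nonneg_left (h3.trans h4) (by positivity)
            _ = lam * Real.exp (lam / th) := by field_simp
        have h7 : 0 ≤ B / m * U.card := by positivity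
        linarith
      have h8 : 1 ≤ pot (lam / m) (B / m) U X * Real.exp (lam * Real.exp (lam / th)) := by
        calc (1 : ℝ) = Real.exp (-(lam * Real.exp (lam / th))) *
              Real.exp (lam * Real.exp (lam / th)) := by
              rw [← Real.exp_add]; simp
          _ ≤ _ := mul_le_mul_of_nonneg_right h1 (Real.exp_pos _).le
      linarith

end Pool.Agent.W_MP_fefad7_co
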