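import Pool.Agent.W_MP_fefad7_co.Potential

set_option autoImplicit false

namespace Pool.Agent.W_MP_fefad7_co

open Finset

variable {n : ℕ}

lemma exists_response (q : ℕ) (lam B : ℝ)
    (hM : ∀ f : ℝ, 0 ≤ f → f ≤ 1 → Real.exp (lam * f) * (1 - f) ≤ Real.exp B)
    (U X O : Finset (Clause n)) (hO : O ⊆ U) (hne : O.Nonempty) (hcard : O.card ≤ q + 1) :
    ∃ c ∈ O, pot (lam / ((q + 1 : ℕ) : ℝ)) (B / ((q + 1 : ℕ) : ℝ)) (U \ O) (insert c X) ≤
      pot (lam / ((q + 1 : ℕ) : ℝ)) (B / ((q + 1 : ℕ) : ℝ)) U X := by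
  have hmpos : (0 : ℝ) < ((q + 1 : ℕ) : ℝ) := by exact_mod_cast Nat.succ_pos q
  have hmge : ((O.card : ℕ) : ℝ) ≤ ((q + 1 : ℕ) : ℝ) := by exact_mod_cast hcard
  generalize ((q + 1 : ℕ) : ℝ) = m at hmpos hmge ⊢
  by_contra hcon
  push Not at hcon
  have h1 : ∑ c ∈ O, pot (lam / m) (B / m) U X <
      ∑ c ∈ O, pot (lam / m) (B / m) (U \ O) (insert c X) :=
    Finset.sum_lt_sum_of_nonempty hne hcon
  have h2 : ∑ c ∈ O, pot (lam / m) (B / m) (U \ O) (insert c X) ≤
      ∑ c ∈ O, pot (lam / m) (B / m) U X := by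
    rw [Finset.sum_congr rfl fun c _ => pot_step (lam / m) (B / m) U X O hO c,
      ← Finset.mul_sum, Finset.sum_comm, Finset.mul_sum, Finset.sum_const, nsmul_eq_mul]
    unfold pot
    rw [Finset.mul_sum]
    refine Finset.sum_le_sum fun s _ => ?_
    have ht : (0 : ℝ) < O.card := by exact_mod_cast Finset.card_pos.mpr hne
    have htm : (O.card : ℝ) ≤ m := hmge
    have e1 : ∑ c ∈ O, Real.exp (-(lam / m) * (U ∩ viol s).card) *
        Real.exp (lam / m * (O ∩ viol s).card) * (1 - ind c (viol s)) =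
        Real.exp (-(lam / m) * (U ∩ viol s).card) *
        Real.exp (lam / m * (O ∩ viol s).card) * (O.card - (O ∩ viol s).card) := by
      rw [← Finset.mul_sum, Finset.sum_sub_distrib, Finset.sum_const, nsmul_eq_mul, mul_one]
      congr 2
      unfold ind
      rw [Finset.sum_ite_mem, Finset.sum_const, nsmul_eq_mul, mul_one]
    rw [e1]
    set f : ℝ := ((O ∩ viol s).card : ℝ) / O.card with hf
    have hf0 : 0 ≤ f := by positivity
    have hf1 : f ≤ 1 := by
      rw [hf, div_le_one ht]
      exact_mod_cast Finset.card_le_card Finset.inter_subset_left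
    have hfO : ((O ∩ viol s).card : ℝ) = O.card * f := by
      rw [hf]
      field_simp
    have key : Real.exp (-(B / m * O.card)) * (Real.exp (lam / m * (O.card * f)) * (1 - f)) ≤ 1 := by
      have e2 : Real.exp (-(B / m * O.card)) * (Real.exp (lam / m * (O.card * f)) * (1 - f)) =
          Real.exp (O.card / m * (lam * f - B)) * (1 - f) := by
        rw [← mul_assoc, ← Real.exp_add]
        congr 2
        ring
      rw [e2]
      rcases le_total (lam * f - B) 0 with h0 | h0
      · have h3 : Real.exp (O.card / m * (lam * f - B)) ≤ 1 := by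
          rw [← Real.exp_zero]
          apply Real.exp_le_exp.mpr
          exact mul_nonpos_of_nonneg_of_nonpos (div_nonneg ht.le hmpos.le) h0
        have h4 : 0 ≤ Real.exp (O.card / m * (lam * f - B)) := (Real.exp_pos _).le
        nlinarith
      · have h3 : Real.exp (O.card / m * (lam * f - B)) ≤ Real.exp (lam * f - B) := by
          apply Real.exp_le_exp.mpr
          have : (O.card : ℝ) / m ≤ 1 := by
            rw [div_le_one hmpos]
            exact htm
          nlinarith
        calc Real.exp (O.card / m * (lam * f - B)) * (1 - f)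
            ≤ Real.exp (lam * f - B) * (1 - f) :=
              mul_le_mul_of_nonneg_right h3 (by linarith)
          _ = Real.exp (-B) * (Real.exp (lam * f) * (1 - f)) := by
              rw [← mul_assoc, ← Real.exp_add]
              congr 2
              ring
          _ ≤ Real.exp (-B) * Real.exp B :=
              mul_le_mul_of_nonneg_left (hM f hf0 hf1) (Real.exp_pos _).le
          _ = 1 := by rw [← Real.exp_add, neg_add_cancel, Real.exp_zero]
    rw [hfO]
    have e3 : Real.exp (B / m * U.card) * Real.exp (-(B / m * O.card)) *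
        (Real.exp (-(lam / m) * (U ∩ viol s).card) * Real.exp (lam / m * (O.card * f)) *
        (O.card - O.card * f)) =
        (Real.exp (-(B / m * O.card)) * (Real.exp (lam / m * (O.card * f)) * (1 - f))) *
        (O.card * (Real.exp (-(lam / m) * (U ∩ viol s).card) * Real.exp (B / m * U.card))) := by
      ring
    rw [e3, ← Real.exp_add]
    have h5 : 0 ≤ (O.card : ℝ) * Real.exp (-(lam / m) * (U ∩ viol s).card + B / m * U.card) :=
      mul_nonneg ht.le (Real.exp_pos _).le
    calc _ ≤ 1 * ((O.card : ℝ) * Real.exp (-(lam / m) * (U ∩ viol s).card + B / m * U.card)) :=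
          mul_le_mul_of_nonneg_right key h5
      _ = _ := one_mul _
  linarith

/-- If the potential of a position of the Client-Waiter game is below `1` then Client wins. -/
lemma clientWinsCW_of_pot (q : ℕ) (lam B : ℝ)
    (hM : ∀ f : ℝ, 0 ≤ f → f ≤ 1 → Real.exp (lam * f) * (1 - f) ≤ Real.exp B) :
    ∀ (N : ℕ) (U X : Finset (Clause n)), U.card ≤ N →
      pot (lam / ((q + 1 : ℕ) : ℝ)) (B / ((q + 1 : ℕ) : ℝ)) U X < 1 → ClientWinsCW q U X := by
  classical
  intro N
  induction N with
  | zero =>
    intro U X hU hpot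
    have hU0 : U = ∅ := Finset.card_eq_zero.mp (by omega)
    subst hU0
    refine ClientWinsCW.final X ?_
    rw [satisfiable_iff]
    intro hne
    have h1 : (1 : ℝ) ≤ pot (lam / ((q + 1 : ℕ) : ℝ)) (B / ((q + 1 : ℕ) : ℝ)) ∅ X := by
      have h2 : pot (lam / ((q + 1 : ℕ) : ℝ)) (B / ((q + 1 : ℕ) : ℝ)) ∅ X = (sols X).card := by
        unfold pot
        rw [Finset.sum_congr rfl (g := fun _ => (1 : ℝ)) (fun s _ => by
          rw [Finset.empty_inter, Finset.card_empty, Nat.cast_zero, mul_zero, mul_zero, add_zero,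
            Real.exp_zero])]
        rw [Finset.sum_const, nsmul_eq_mul, mul_one]
      rw [h2]
      exact_mod_cast Finset.card_pos.mpr hne
    linarith
  | succ N ih =>
    intro U X hU hpot
    by_cases hU0 : U.Nonempty
    swap
    · rw [Finset.not_nonempty_iff_eq_empty] at hU0
      subst hU0
      exact ih ∅ X (by simp) hpot
    · have hex : ∀ O : Finset (Clause n), ∃ c : Clause n, O ⊆ U → O.Nonempty → O.card ≤ q + 1 →
          c ∈ O ∧ pot (lam / ((q + 1 : ℕ) : ℝ)) (B / ((q + 1 : ℕ) : ℝ)) (U \ O) (insert c X) ≤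
            pot (lam / ((q + 1 : ℕ) : ℝ)) (B / ((q + 1 : ℕ) : ℝ)) U X := by
        intro O
        by_cases hO : O ⊆ U ∧ O.Nonempty ∧ O.card ≤ q + 1
        · obtain ⟨c, hc, hc'⟩ := exists_response q lam B hM U X O hO.1 hO.2.1 hO.2.2
          exact ⟨c, fun _ _ _ => ⟨hc, hc'⟩⟩
        · exact ⟨∅, fun h1 h2 h3 => absurd ⟨h1, h2, h3⟩ hO⟩
      choose r hr using hex
      refine ClientWinsCW.respond U X hU0 r (fun O hO hne hc => (hr O hO hne hc).1) ?_
      intro O hO hne hc
      have hlt := sdiff_card_lt hO hne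
      exact ih _ _ (by omega) (lt_of_le_of_lt (hr O hO hne hc).2 hpot)

end Pool.Agent.W_MP_fefad7_co
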