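import Mathlib

set_option autoImplicit false

namespace Pool.Agent.W_MP_fefad7_co

open Finset

variable {α ι : Type*} [DecidableEq α]

/-- Deterministic sampling without replacement: from a nonempty finite set `P` one can choose `m`
elements such that the densities of all the sets `A i` are preserved in weighted mean square. -/
lemma exists_sample (P : Finset α) (I : Finset ι) (A : ι → Finset α) (w : ι → ℝ)
    (hw : ∀ i ∈ I, 0 ≤ w i) (m : ℕ) (hm : m ≤ P.card) :
    ∃ O ⊆ P, O.card = m ∧
      ∑ i ∈ I, w i * (((O ∩ A i).card : ℝ) - m * (((P ∩ A i).card : ℝ) / P.card)) ^ 2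
        ≤ m * ∑ i ∈ I, w i := by
  induction m with
  | zero => exact ⟨∅, by simp, by simp, by simp⟩
  | succ m ih =>
    obtain ⟨O, hOP, hcard, hsum⟩ := ih (by omega)
    set f : ι → ℝ := fun i => ((P ∩ A i).card : ℝ) / P.card with hf
    set S : ι → ℝ := fun i => ((O ∩ A i).card : ℝ) - m * f i with hS
    have hPpos : (0 : ℝ) < P.card := by
      have : 0 < P.card := by omega
      exact_mod_cast this
    have hne : (P \ O).Nonempty := by
      rw [← Finset.card_pos, Finset.card_sdiff_of_subset hOP]
      omega
    -- indicator
    let e : α → ι → ℝ := fun c i => if c ∈ A i then 1 else 0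
    have havg : ∑ c ∈ P \ O, ∑ i ∈ I, w i * S i * (e c i - f i) ≤ 0 := by
      rw [Finset.sum_comm]
      have : ∀ i ∈ I, ∑ c ∈ P \ O, w i * S i * (e c i - f i) = -(w i * S i ^ 2) := by
        intro i _
        rw [← Finset.mul_sum, Finset.sum_sub_distrib]
        have h1 : ∑ c ∈ P \ O, e c i = ((P ∩ A i).card : ℝ) - (O ∩ A i).card := by
          have h2 : ∑ c ∈ P \ O, e c i + ∑ c ∈ O, e c i = ∑ c ∈ P, e c i :=
            Finset.sum_sdiff hOP
          have h3 : ∀ Q : Finset α, ∑ c ∈ Q, e c i = ((Q ∩ A i).card : ℝ) := by
            intro Q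
            simp only [e]
            rw [Finset.sum_ite_mem, Finset.sum_const, nsmul_eq_mul, mul_one]
          rw [h3 (P \ O), h3 O, h3 P] at h2
          rw [h3 (P \ O)]
          linarith
        have h4 : ∑ c ∈ P \ O, f i = ((P.card : ℝ) - m) * f i := by
          rw [Finset.sum_const, nsmul_eq_mul, Finset.card_sdiff_of_subset hOP, hcard,
            Nat.cast_sub (by omega)]
        have h5 : ((P ∩ A i).card : ℝ) = P.card * f i := by
          rw [hf]
          field_simp
        rw [h1, h4, h5]
        have : (P.card * f i - ((O ∩ A i).card : ℝ) - (P.card - m) * f i) = - S i := by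
          rw [hS]
          ring
        rw [this]
        ring
      rw [Finset.sum_congr rfl this, Finset.sum_neg_distrib]
      have : 0 ≤ ∑ i ∈ I, w i * S i ^ 2 :=
        Finset.sum_nonneg fun i hi => mul_nonneg (hw i hi) (sq_nonneg _)
      linarith
    obtain ⟨c, hc, hc0⟩ : ∃ c ∈ P \ O, ∑ i ∈ I, w i * S i * (e c i - f i) ≤ 0 := by
      by_contra hcon
      push Not at hcon
      have := Finset.sum_pos hcon hne
      linarith
    rw [Finset.mem_sdiff] at hc
    refine ⟨insert c O, ?_, ?_, ?_⟩
    · intro x hx
      rw [Finset.mem_insert] at hx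
      rcases hx with rfl | hx
      · exact hc.1
      · exact hOP hx
    · rw [Finset.card_insert_of_notMem hc.2, hcard]
    · have hstep : ∀ i ∈ I, w i * (((insert c O ∩ A i).card : ℝ)
          - ((m + 1 : ℕ) : ℝ) * (((P ∩ A i).card : ℝ) / P.card)) ^ 2
          = w i * S i ^ 2 + 2 * (w i * S i * (e c i - f i)) + w i * (e c i - f i) ^ 2 := by
        intro i _
        have h1 : ((insert c O ∩ A i).card : ℝ) = (O ∩ A i).card + e c i := by
          by_cases hci : c ∈ A i
          · rw [Finset.insert_inter_of_mem hci, Finset.card_insert_of_notMem]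
            · simp [e, hci]
            · intro h
              exact hc.2 (Finset.mem_inter.mp h).1
          · rw [Finset.insert_inter_of_notMem hci]
            simp [e, hci]
        rw [h1]
        have h2 : ((P ∩ A i).card : ℝ) / P.card = f i := rfl
        rw [h2]
        push_cast
        have h3 : ((O ∩ A i).card : ℝ) = S i + m * f i := by rw [hS]; ring
        rw [h3]
        ring
      rw [Finset.sum_congr rfl hstep, Finset.sum_add_distrib, Finset.sum_add_distrib,
        ← Finset.mul_sum]
      have h6 : ∑ i ∈ I, w i * (e c i - f i) ^ 2 ≤ ∑ i ∈ I, w i := by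
        refine Finset.sum_le_sum fun i hi => ?_
        have hf0 : 0 ≤ f i := by positivity
        have hf1 : f i ≤ 1 := by
          rw [hf]
          rw [div_le_one hPpos]
          exact_mod_cast Finset.card_le_card Finset.inter_subset_left
        have he : e c i = 0 ∨ e c i = 1 := by
          by_cases hci : c ∈ A i
          · right; simp [e, hci]
          · left; simp [e, hci]
        have : (e c i - f i) ^ 2 ≤ 1 := by
          rcases he with h | h <;> rw [h] <;> nlinarith
        calc w i * (e c i - f i) ^ 2 ≤ w i * 1 := mul_le_mul_of_nonneg_left this (hw i hi)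
          _ = w i := mul_one _
      have h7 : ∑ i ∈ I, w i * S i ^ 2 ≤ m * ∑ i ∈ I, w i := hsum
      push_cast
      linarith

end Pool.Agent.W_MP_fefad7_co
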